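import Mathlib

/-! The Lie bracket of vector fields on a manifold acts on functions as the commutator. -/

namespace Pool.Agent.H83.Geo

open Set Filter Topology VectorField Bundle
open scoped Manifold ContDiff

variable {E : Type*} [NormedAddCommGroup E] [NormedSpace ℝ E]
  {H : Type*} [TopologicalSpace H] {I : ModelWithCorners ℝ E H} [I.Boundaryless]
  {M : Type*} [TopologicalSpace M] [ChartedSpace H M] [IsManifold I ∞ M]

/-- a vector field read in a chart -/
noncomputable def inChart (I : ModelWithCorners ℝ E H) (x : M) (U : Π x : M, TangentSpace I x)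
    (y : E) : E :=
  mpullbackWithin 𝓘(ℝ, E) I (extChartAt I x).symm U (range I) y

/-- a derivative of a function along a vector field, in a chart -/
lemma fderiv_chart (x : M) {f : M → ℝ} {y : E} (hy : y ∈ (extChartAt I x).target)
    (hf : MDifferentiableAt I 𝓘(ℝ, ℝ) f ((extChartAt I x).symm y)) (U : Π x : M, TangentSpace I x) :
    fderiv ℝ (f ∘ (extChartAt I x).symm) y (inChart I x U y) =
      mvfderiv I f ((extChartAt I x).symm y) (U ((extChartAt I x).symm y)) := by
  have : IsManifold I 1 M := IsManifold.of_le (n := ∞) (by simp)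
  have hr : range I = univ := I.range_eq_univ
  have hd : MDifferentiableWithinAt 𝓘(ℝ, E) I (extChartAt I x).symm (range I) y :=
    mdifferentiableWithinAt_extChartAt_symm hy
  have hinv := isInvertible_mfderivWithin_extChartAt_symm (I := I) hy
  rw [hr] at hd hinv
  rw [mfderivWithin_univ] at hinv
  have hd' : MDifferentiableAt 𝓘(ℝ, E) I (extChartAt I x).symm y := by
    rwa [mdifferentiableWithinAt_univ] at hd
  have h1 := mfderiv_comp y hf hd'
  rw [mfderiv_eq_fderiv] at h1
  rw [h1, inChart, hr, mpullbackWithin_apply, mfderivWithin_univ]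
  change (mfderiv I 𝓘(ℝ, ℝ) f ((extChartAt I x).symm y)) ((mfderiv 𝓘(ℝ, E) I (extChartAt I x).symm y)
    ((mfderiv 𝓘(ℝ, E) I (extChartAt I x).symm y).inverse (U ((extChartAt I x).symm y)))) = _
  obtain ⟨L, hL⟩ := hinv
  rw [← hL, ContinuousLinearMap.inverse_equiv]
  change (mfderiv I 𝓘(ℝ, ℝ) f ((extChartAt I x).symm y)) (L (L.symm (U ((extChartAt I x).symm y)))) = _
  rw [L.apply_symm_apply]
  rfl

omit [I.Boundaryless] in
lemma mfderiv_of_chart (x : M) {f : M → ℝ} (hf : DifferentiableAt ℝ (f ∘ (extChartAt I x).symm)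
      (extChartAt I x x)) (v : TangentSpace I x) :
    mvfderiv I f x v = fderiv ℝ (f ∘ (extChartAt I x).symm) (extChartAt I x x)
      (mfderiv I 𝓘(ℝ, E) (extChartAt I x) x v) := by
  have : IsManifold I 1 M := IsManifold.of_le (n := ∞) (by simp)
  have h7 : MDifferentiableAt I 𝓘(ℝ, E) (extChartAt I x) x :=
    mdifferentiableAt_extChartAt (mem_chart_source H x)
  have h10 := mfderiv_comp x hf.mdifferentiableAt h7
  rw [mfderiv_eq_fderiv] at h10
  have h11 : mfderiv I 𝓘(ℝ, ℝ) f x = mfderiv I 𝓘(ℝ, ℝ) ((f ∘ (extChartAt I x).symm) ∘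
      (extChartAt I x)) x := by
    apply Filter.EventuallyEq.mfderiv_eq
    filter_upwards [extChartAt_source_mem_nhds (I := I) x] with z hz
    exact (congrArg f ((extChartAt I x).left_inv hz)).symm
  change mfderiv I 𝓘(ℝ, ℝ) f x v = _
  rw [h11, h10]
  rfl

/-- The derivative along a Lie bracket is the commutator of the derivatives. -/
theorem mvfderiv_mlieBracket [CompleteSpace E] {f : M → ℝ} {x : M}
    (hf : ContMDiffAt I 𝓘(ℝ, ℝ) 2 f x) {V W : Π x : M, TangentSpace I x}
    (hV : MDifferentiableAt I I.tangent (fun y => (⟨y, V y⟩ : TangentBundle I M)) x)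
    (hW : MDifferentiableAt I I.tangent (fun y => (⟨y, W y⟩ : TangentBundle I M)) x) :
    mvfderiv I f x (mlieBracket I V W x) =
      mvfderiv I (fun y => mvfderiv I f y (W y)) x (V x) -
        mvfderiv I (fun y => mvfderiv I f y (V y)) x (W x) := by
  have : IsManifold I 1 M := IsManifold.of_le (n := ∞) (by simp)
  have : IsManifold I 2 M := IsManifold.of_le (n := ∞) (ENat.LEInfty.out)
  have hr : range I = univ := I.range_eq_univ
  set φ := extChartAt I x with hφ
  set y0 := φ x with hy0
  have hx0 : φ.symm y0 = x := extChartAt_to_inv x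
  have hy0t : y0 ∈ φ.target := mem_extChartAt_target x
  set V' : E → E := inChart I x V with hV'
  set W' : E → E := inChart I x W with hW'
  set f' : E → ℝ := f ∘ φ.symm with hf'
  -- regularity in the chart
  have hsymm : ContMDiffAt 𝓘(ℝ, E) I 2 φ.symm y0 := by
    have h := contMDiffWithinAt_extChartAt_symm_range (I := I) (n := 2) x hy0t
    rwa [hr, contMDiffWithinAt_univ] at h
  have hcf' : ContDiffAt ℝ 2 f' y0 := by
    rw [← contMDiffAt_iff_contDiffAt]
    exact ContMDiffAt.comp_of_eq hf hsymm hx0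
  have hdU : ∀ {U : Π x : M, TangentSpace I x},
      MDifferentiableAt I I.tangent (fun y => (⟨y, U y⟩ : TangentBundle I M)) x →
      DifferentiableAt ℝ (inChart I x U) y0 := by
    intro U hU
    have h : DifferentiableWithinAt ℝ (inChart I x U) ((extChartAt I x).symm ⁻¹' univ ∩ range I)
      (extChartAt I x x) :=
      (mdifferentiableWithinAt_univ.mpr hU).differentiableWithinAt_mpullbackWithin_vectorField
    rw [preimage_univ, univ_inter, hr, differentiableWithinAt_univ] at h
    exact h
  have hdV := hdU hV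
  have hdW := hdU hW
  -- f is differentiable near x
  have hfn : ∀ᶠ z in 𝓝 x, MDifferentiableAt I 𝓘(ℝ, ℝ) f z := by
    have h := (contMDiffAt_iff_contMDiffAt_nhds (by simp)).1 hf
    filter_upwards [h] with z hz using ContMDiffAt.mdifferentiableAt hz (by simp)
  have hfn' : ∀ᶠ y in 𝓝 y0, MDifferentiableAt I 𝓘(ℝ, ℝ) f (φ.symm y) := by
    have hc : ContinuousAt φ.symm y0 := ContMDiffAt.continuousAt hsymm
    have h := hc.tendsto
    rw [hx0] at h
    exact h.eventually hfn
  have htn : ∀ᶠ y in 𝓝 y0, y ∈ φ.target := (isOpen_extChartAt_target x).mem_nhds hy0t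
  have key : ∀ U : Π x : M, TangentSpace I x, (fun y => mvfderiv I f y (U y)) ∘ φ.symm =ᶠ[𝓝 y0]
      fun y => fderiv ℝ f' y (inChart I x U y) := by
    intro U
    filter_upwards [hfn', htn] with y hy1 hy2
    exact (fderiv_chart x hy2 hy1 U).symm
  -- derivative of a function at the centre of the chart
  have key2 : ∀ (g : M → ℝ), DifferentiableAt ℝ (g ∘ φ.symm) y0 → ∀ U : Π x : M, TangentSpace I x,
      mvfderiv I g x (U x) =
        fderiv ℝ (g ∘ φ.symm) y0 (inChart I x U y0) := by
    intro g hg U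
    have hg' : MDifferentiableAt I 𝓘(ℝ, ℝ) g x := by
      have h1 : MDifferentiableAt 𝓘(ℝ, E) 𝓘(ℝ, ℝ) (g ∘ φ.symm) (φ x) := hg.mdifferentiableAt
      have h2 : MDifferentiableAt I 𝓘(ℝ, E) φ x := mdifferentiableAt_extChartAt (mem_chart_source H x)
      have h3 := MDifferentiableAt.comp x h1 h2
      refine h3.congr_of_eventuallyEq ?_
      filter_upwards [extChartAt_source_mem_nhds (I := I) x] with z hz
      exact (congrArg g (φ.left_inv hz)).symm
    have h4 := fderiv_chart x hy0t (f := g) (by rw [← hφ, hx0]; exact hg') U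
    rw [← hφ, hx0] at h4
    exact h4.symm
  have hdf : ∀ {U : E → E}, DifferentiableAt ℝ U y0 →
      DifferentiableAt ℝ (fun y => fderiv ℝ f' y (U y)) y0 := by
    intro U hU
    have h1 : DifferentiableAt ℝ (fderiv ℝ f') y0 :=
      (hcf'.fderiv_right (m := 1) (by norm_num)).differentiableAt (by simp)
    exact h1.clm_apply hU
  rw [key2 (fun y => mvfderiv I f y (W y)) ((hdf hdW).congr_of_eventuallyEq (key W)) V,
    key2 (fun y => mvfderiv I f y (V y)) ((hdf hdV).congr_of_eventuallyEq (key V)) W,
    (key V).fderiv_eq, (key W).fderiv_eq]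
  have hbr := fderiv_apply_lieBracket (𝕜 := ℝ) hcf' (by simp) hdW hdV
  refine Eq.trans ?_ hbr
  -- the left side
  rw [mfderiv_of_chart x (hcf'.differentiableAt (by simp))]
  have h5 : mfderiv I 𝓘(ℝ, E) φ x (mlieBracket I V W x) = lieBracket ℝ V' W' y0 := by
    have hinv := isInvertible_mfderiv_extChartAt (I := I) (mem_extChartAt_source (I := I) x)
    obtain ⟨L, hL⟩ := hinv
    rw [mlieBracket, mlieBracketWithin_apply, preimage_univ, univ_inter]
    rw [← hφ] at hL ⊢
    rw [← hL, ContinuousLinearMap.inverse_equiv]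
    refine (L.apply_symm_apply _).trans ?_
    rw [hV', hW', ← lieBracketWithin_univ]
    have : ∀ s : Set E, s = univ → lieBracketWithin ℝ (mpullbackWithin 𝓘(ℝ, E) I (↑φ.symm) V (range I))
        (mpullbackWithin 𝓘(ℝ, E) I (↑φ.symm) W (range I)) s (φ x) =
        lieBracketWithin ℝ (inChart I x V) (inChart I x W) univ y0 := by
      intro s hs; rw [hs]; rfl
    exact this _ hr
  exact congrArg (fderiv ℝ f' y0) h5

end Pool.Agent.H83.Geo
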