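import Mathlib

/-! Riemannian metrics on a manifold, the Levi-Civita connection, the curvature operator on
2-vectors and its positivity; the product of two spheres as a manifold. -/

namespace Pool.Agent.H83.CurvOp

open Bundle VectorField
open scoped Manifold ContDiff

section general

variable {E : Type*} [NormedAddCommGroup E] [NormedSpace ℝ E]
  {H : Type*} [TopologicalSpace H]

/-- Vector fields on the manifold `M`. -/
abbrev VField (I : ModelWithCorners ℝ E H) (M : Type*) [TopologicalSpace M] [ChartedSpace H M] :=
  (x : M) → TangentSpace I x

variable {I : ModelWithCorners ℝ E H} {M : Type*} [TopologicalSpace M] [ChartedSpace H M]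

/-- The derivative of the function `f` along the vector field `X`. -/
noncomputable def dirDeriv (X : VField I M) (f : M → ℝ) (x : M) : ℝ := mvfderiv I f x (X x)

/-- The Lie bracket of two vector fields. -/
noncomputable def bracket (X Y : VField I M) : VField I M := mlieBracket I X Y

/-- The difference of two vector fields. -/
noncomputable def subField (X Y : VField I M) : VField I M := fun x => X x - Y x

variable [IsManifold I ∞ M]

/-- The vector field `X` is smooth. -/
def SmoothField (X : VField I M) : Prop :=
  ContMDiff I I.tangent ∞ (fun x => (⟨x, X x⟩ : TangentBundle I M))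

/-- The vector field `X` is differentiable at the point `x`. -/
def DiffAt (X : VField I M) (x : M) : Prop :=
  MDifferentiableAt I I.tangent (fun y => (⟨y, X y⟩ : TangentBundle I M)) x

variable (I M) in
/-- Smooth Riemannian metrics on the manifold `M`. -/
abbrev RiemannMetric := ContMDiffRiemannianMetric I ∞ E (fun x : M => TangentSpace I x)

variable (I M) in
/-- Connections on the tangent bundle of `M`. -/
abbrev Connection := CovariantDerivative I E (fun x : M => TangentSpace I x)

/-- The scalar product `g(X, Y)` of two vector fields, a function on `M`. -/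
noncomputable def scalarProd (g : RiemannMetric I M) (X Y : VField I M) (x : M) : ℝ :=
  g.inner x (X x) (Y x)

/-- The covariant derivative `∇_X Y`. -/
noncomputable def covDeriv (nabla : Connection I M) (X Y : VField I M) : VField I M :=
  fun x => nabla Y x (X x)

/-- The connection `nabla` is the Levi-Civita connection of `g`: it is torsion-free,
`∇_X Y - ∇_Y X = [X,Y]`, and compatible with the metric, `X g(Y,Z) = g(∇_X Y, Z) + g(Y, ∇_X Z)`. -/
structure IsLeviCivita (g : RiemannMetric I M) (nabla : Connection I M) : Prop where
  torsion : ∀ (X Y : VField I M) (x : M), DiffAt X x → DiffAt Y x →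
    subField (covDeriv nabla X Y) (covDeriv nabla Y X) x = bracket X Y x
  metric : ∀ (X Y Z : VField I M) (x : M), DiffAt X x → DiffAt Y x → DiffAt Z x →
    dirDeriv X (scalarProd g Y Z) x =
      scalarProd g (covDeriv nabla X Y) Z x + scalarProd g Y (covDeriv nabla X Z) x

/-- The curvature `R(X,Y)Z = ∇_X ∇_Y Z - ∇_Y ∇_X Z - ∇_[X,Y] Z`. -/
noncomputable def curvature (nabla : Connection I M) (X Y Z : VField I M) : VField I M :=
  subField
    (subField (covDeriv nabla X (covDeriv nabla Y Z)) (covDeriv nabla Y (covDeriv nabla X Z)))
    (covDeriv nabla (bracket X Y) Z)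

/-- The smooth vector fields `e 0, ..., e (m-1)` are orthonormal at the point `x`. -/
def OrthonormalAt {m : ℕ} (g : RiemannMetric I M) (e : Fin m → VField I M) (x : M) : Prop :=
  (∀ i, SmoothField (e i)) ∧ ∀ i j, scalarProd g (e i) (e j) x = if i = j then 1 else 0

/-- The matrix of the curvature operator at `x` with respect to the 2-vectors `e i ∧ e j`, `i < j`:
its entry at `(i,j), (k,l)` is `g(R(e i, e j) e l, e k)`. -/
noncomputable def opMatrix {m : ℕ} (g : RiemannMetric I M) (nabla : Connection I M)
    (e : Fin m → VField I M) (x : M) :
    Matrix {p : Fin m × Fin m // p.1 < p.2} {p : Fin m × Fin m // p.1 < p.2} ℝ :=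
  fun p q => scalarProd g (curvature nabla (e p.1.1) (e p.1.2) (e q.1.2)) (e q.1.1) x

/-- The Riemannian metric `g` on the `m`-dimensional manifold `M` has a `k`-positive curvature
operator: at every point, with respect to every orthonormal basis (given by smooth vector fields),
the sum of any `k` eigenvalues of the curvature operator, with multiplicity, is positive. -/
def OperatorPositive (m k : ℕ) (g : RiemannMetric I M) : Prop :=
  ∀ (nabla : Connection I M) (x : M) (e : Fin m → VField I M),
    IsLeviCivita g nabla → OrthonormalAt g e x →
    ∀ (h : (opMatrix g nabla e x).IsHermitian) (s : Finset {p : Fin m × Fin m // p.1 < p.2}),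
      s.card = k → 0 < ∑ p ∈ s, h.eigenvalues p

end general

section spheres

/-- The unit sphere of `ℝⁿ⁺¹`. -/
abbrev Sphere (n : ℕ) := Metric.sphere (0 : EuclideanSpace ℝ (Fin (n + 1))) 1

/-- The product of two unit `n`-spheres. -/
def SphereProd (n : ℕ) : Type := Sphere n × Sphere n

/-- `ℝⁿ × ℝⁿ`. -/
def ModelVec (n : ℕ) : Type := EuclideanSpace ℝ (Fin n) × EuclideanSpace ℝ (Fin n)

/-- `ℝⁿ × ℝⁿ` as a topological space. -/
def ModelTop (n : ℕ) : Type := ModelProd (EuclideanSpace ℝ (Fin n)) (EuclideanSpace ℝ (Fin n))

variable (n : ℕ)

instance : TopologicalSpace (SphereProd n) := instTopologicalSpaceProd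

noncomputable instance : NormedAddCommGroup (ModelVec n) := Prod.normedAddCommGroup

noncomputable instance : NormedSpace ℝ (ModelVec n) := Prod.normedSpace

instance : TopologicalSpace (ModelTop n) :=
  instTopologicalSpaceModelProd _ _

/-- The model `(𝓡 n).prod (𝓡 n)` of the product of two spheres. -/
noncomputable def sphereModel : ModelWithCorners ℝ (ModelVec n) (ModelTop n) := (𝓡 n).prod (𝓡 n)

/-- The charts of the sphere. -/
@[reducible] noncomputable def sphereCharts :
    ChartedSpace (EuclideanSpace ℝ (Fin n)) (Sphere n) := inferInstance

noncomputable instance : ChartedSpace (ModelTop n) (SphereProd n) :=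
  @prodChartedSpace _ _ _ _ (sphereCharts n) _ _ _ _ (sphereCharts n)

instance : IsManifold (sphereModel n) ∞ (SphereProd n) :=
  inferInstanceAs (IsManifold ((𝓡 n).prod (𝓡 n)) ∞ (Sphere n × Sphere n))

end spheres

end Pool.Agent.H83.CurvOp
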