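import Mathlib

/-! Riemannian metrics on a manifold, their Levi-Civita connections, and the curvature (working
forms of the definitions). -/

namespace Pool.Agent.H83.Geo

open Bundle VectorField
open scoped Manifold ContDiff

section

variable {E : Type*} [NormedAddCommGroup E] [NormedSpace ℝ E]
  {H : Type*} [TopologicalSpace H] (I : ModelWithCorners ℝ E H)
  (M : Type*) [TopologicalSpace M] [ChartedSpace H M] [IsManifold I ∞ M]

/-- Smooth Riemannian metrics on the manifold `M`. -/
abbrev Met := ContMDiffRiemannianMetric I ∞ E (fun x : M => TangentSpace I x)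

/-- Connections on the tangent bundle of `M`. -/
abbrev Conn := CovariantDerivative I E (fun x : M => TangentSpace I x)

end

variable {E : Type*} [NormedAddCommGroup E] [NormedSpace ℝ E]
  {H : Type*} [TopologicalSpace H] {I : ModelWithCorners ℝ E H}
  {M : Type*} [TopologicalSpace M] [ChartedSpace H M] [IsManifold I ∞ M]

/-- The vector field `X` is differentiable at the point `x`. -/
def MDV (X : (x : M) → TangentSpace I x) (x : M) : Prop :=
  MDifferentiableAt I I.tangent (fun y => (⟨y, X y⟩ : TangentBundle I M)) x

/-- The vector field `X` is smooth. -/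
def SmoothVF (X : (x : M) → TangentSpace I x) : Prop :=
  ContMDiff I I.tangent ∞ (fun x => (⟨x, X x⟩ : TangentBundle I M))

/-- The connection `nabla` is torsion-free and compatible with the metric `g`. -/
structure IsLC (g : Met I M) (nabla : Conn I M) : Prop where
  torsion : ∀ (X Y : (x : M) → TangentSpace I x) (x : M), MDV X x → MDV Y x →
    nabla Y x (X x) - nabla X x (Y x) = mlieBracket I X Y x
  metric : ∀ (X Y Z : (x : M) → TangentSpace I x) (x : M), MDV X x → MDV Y x → MDV Z x →
    mvfderiv I (fun y => g.inner y (Y y) (Z y)) x (X x) =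
      g.inner x (nabla Y x (X x)) (Z x) + g.inner x (Y x) (nabla Z x (X x))

/-- The curvature `∇_X ∇_Y Z - ∇_Y ∇_X Z - ∇_[X,Y] Z` of a connection. -/
noncomputable def curv (nabla : Conn I M) (X Y Z : (x : M) → TangentSpace I x) (x : M) :
    TangentSpace I x :=
  nabla (fun y => nabla Z y (Y y)) x (X x) - nabla (fun y => nabla Z y (X y)) x (Y x) -
    nabla Z x (mlieBracket I X Y x)

/-- The matrix of the curvature operator at `x` with respect to `e i ∧ e j`, `i < j`. -/
noncomputable def curvMatrix {m : ℕ} (g : Met I M) (nabla : Conn I M)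
    (e : Fin m → (x : M) → TangentSpace I x) (x : M) :
    Matrix {p : Fin m × Fin m // p.1 < p.2} {p : Fin m × Fin m // p.1 < p.2} ℝ :=
  fun p q => g.inner x (curv nabla (e p.1.1) (e p.1.2) (e q.1.2) x) (e q.1.1 x)

end Pool.Agent.H83.Geo
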