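import Mathlib
import Pool.Agent.H83.Geo.Defs
import Pool.Agent.H83.Geo.Internal

/-! The definitions of `Defs` agree with the working forms of `Internal`. -/

namespace Pool.Agent.H83.CurvOp

open Bundle VectorField
open scoped Manifold ContDiff

variable {E : Type*} [NormedAddCommGroup E] [NormedSpace ℝ E]
  {H : Type*} [TopologicalSpace H] {I : ModelWithCorners ℝ E H}
  {M : Type*} [TopologicalSpace M] [ChartedSpace H M] [IsManifold I ∞ M]

lemma isLeviCivita_of {g : RiemannMetric I M} {nabla : Connection I M} (h : Geo.IsLC g nabla) :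
    IsLeviCivita g nabla where
  torsion X Y x hX hY := h.torsion X Y x hX hY
  metric X Y Z x hX hY hZ := h.metric X Y Z x hX hY hZ

lemma opMatrix_eq {m : ℕ} (g : RiemannMetric I M) (nabla : Connection I M) (e : Fin m → VField I M)
    (x : M) : opMatrix g nabla e x = Geo.curvMatrix g nabla e x := rfl

lemma not_positive {m k : ℕ} (g : RiemannMetric I M) (nabla : Connection I M) (h : Geo.IsLC g nabla)
    (x : M) (e : Fin m → (x : M) → TangentSpace I x) (h1 : ∀ a, Geo.SmoothVF (e a))
    (h2 : ∀ a b, g.inner x (e a x) (e b x) = if a = b then 1 else 0)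
    (hA : (Geo.curvMatrix g nabla e x).IsHermitian)
    (s : Finset {p : Fin m × Fin m // p.1 < p.2}) (hs : s.card = k)
    (hle : ∑ i ∈ s, hA.eigenvalues i ≤ 0) : ¬ OperatorPositive m k g := fun hp =>
  absurd (hp nabla x e (isLeviCivita_of h) ⟨h1, h2⟩ hA s hs) (not_lt.mpr hle)

end Pool.Agent.H83.CurvOp
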