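import Mathlib

/-! The vector field generated by a smooth one-parameter family of maps. -/

namespace Pool.Agent.H83.Geo

open Set Filter Topology Bundle
open scoped Manifold ContDiff

variable {E : Type*} [NormedAddCommGroup E] [NormedSpace ℝ E]
  {H : Type*} [TopologicalSpace H] {I : ModelWithCorners ℝ E H}
  {M : Type*} [TopologicalSpace M] [ChartedSpace H M] [IsManifold I ∞ M]

theorem exists_flow_field (Φ : ℝ × M → M) (hΦ : ContMDiff (𝓘(ℝ, ℝ).prod I) I ∞ Φ)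
    (h0 : ∀ x, Φ (0, x) = x) : ∃ V : Π x : M, TangentSpace I x,
      ContMDiff I I.tangent ∞ (fun x => (⟨x, V x⟩ : TangentBundle I M)) ∧
      ∀ (g : M → ℝ) (x : M), MDifferentiableAt I 𝓘(ℝ, ℝ) g x →
        HasDerivAt (fun t => g (Φ (t, x))) (mvfderiv I g x (V x)) 0 := by
  have i1 : IsManifold I 1 M := IsManifold.of_le (n := ∞) (by simp)
  let fg : M → TangentBundle I M := fun g ↦ TotalSpace.mk' E g 0
  have sfg : ContMDiff I I.tangent ∞ fg := contMDiff_zeroSection _ _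
  let fv : M → TangentBundle 𝓘(ℝ, ℝ) ℝ := fun _ ↦ TotalSpace.mk' ℝ 0 1
  have sfv : ContMDiff I (𝓘(ℝ, ℝ)).tangent ∞ fv := contMDiff_const
  let F₁ : M → (TangentBundle 𝓘(ℝ, ℝ) ℝ × TangentBundle I M) := fun g ↦ (fv g, fg g)
  have S₁ : ContMDiff I ((𝓘(ℝ, ℝ)).tangent.prod I.tangent) ∞ F₁ := sfv.prodMk sfg
  let F₂ : (TangentBundle 𝓘(ℝ, ℝ) ℝ × TangentBundle I M) → TangentBundle (𝓘(ℝ, ℝ).prod I) (ℝ × M) :=
    (equivTangentBundleProd 𝓘(ℝ, ℝ) ℝ I M).symm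
  have S₂ : ContMDiff ((𝓘(ℝ, ℝ)).tangent.prod I.tangent) ((𝓘(ℝ, ℝ).prod I)).tangent ∞ F₂ :=
    contMDiff_equivTangentBundleProd_symm
  let F₃ : TangentBundle (𝓘(ℝ, ℝ).prod I) (ℝ × M) → TangentBundle I M :=
    tangentMap (𝓘(ℝ, ℝ).prod I) I Φ
  have S₃ : ContMDiff ((𝓘(ℝ, ℝ).prod I)).tangent I.tangent ∞ F₃ :=
    hΦ.contMDiff_tangentMap (m := ∞) (by simp)
  have S := (S₃.comp S₂).comp S₁
  set s : M → TangentBundle I M := (F₃ ∘ F₂) ∘ F₁ with hs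
  have hs1 : ∀ x, (s x).1 = x := fun x => h0 x
  let V : Π x : M, TangentSpace I x := fun x => (hs1 x) ▸ (s x).2
  have hV : ∀ x, (⟨x, V x⟩ : TangentBundle I M) = s x := by
    intro x
    have : ∀ (p : TangentBundle I M) (h : p.1 = x),
        (⟨x, h ▸ p.2⟩ : TangentBundle I M) = p := by
      intro p h; subst h; rfl
    exact this _ _
  refine ⟨V, ?_, ?_⟩
  · have : (fun x => (⟨x, V x⟩ : TangentBundle I M)) = s := funext hV
    rw [this]; exact S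
  · intro g x hg
    have h1 : mvfderiv I g x (V x) = mvfderiv I g (s x).1 (s x).2 := by
      have : ∀ (p q : TangentBundle I M) (_ : p = q), mvfderiv I g p.1 p.2 = mvfderiv I g q.1 q.2 := by
        intro p q h; rw [h]
      exact this ⟨x, V x⟩ (s x) (hV x)
    rw [h1]
    -- the derivative of g ∘ Φ(·, x)
    have hg' : MDifferentiableAt I 𝓘(ℝ, ℝ) g (Φ (0, x)) := by rw [h0]; exact hg
    have hΦ' : MDifferentiableAt (𝓘(ℝ, ℝ).prod I) I Φ (0, x) :=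
      (hΦ (0, x)).mdifferentiableAt (by simp)
    have hc : MDifferentiableAt 𝓘(ℝ, ℝ) (𝓘(ℝ, ℝ).prod I) (fun t : ℝ => (t, x)) 0 :=
      mdifferentiableAt_id.prodMk mdifferentiableAt_const
    have h2 : MDifferentiableAt 𝓘(ℝ, ℝ) I (fun t : ℝ => Φ (t, x)) 0 :=
      MDifferentiableAt.comp (0 : ℝ) hΦ' hc
    have h3 : MDifferentiableAt 𝓘(ℝ, ℝ) 𝓘(ℝ, ℝ) (fun t : ℝ => g (Φ (t, x))) 0 :=
      MDifferentiableAt.comp (0 : ℝ) hg' h2
    have h4 : DifferentiableAt ℝ (fun t : ℝ => g (Φ (t, x))) 0 := h3.differentiableAt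
    have h5 : mfderiv 𝓘(ℝ, ℝ) 𝓘(ℝ, ℝ) (fun t : ℝ => g (Φ (t, x))) 0 =
        (mfderiv I 𝓘(ℝ, ℝ) g (Φ (0, x))).comp (mfderiv 𝓘(ℝ, ℝ) I (fun t : ℝ => Φ (t, x)) 0) :=
      mfderiv_comp (0 : ℝ) hg' h2
    have h6 : mfderiv 𝓘(ℝ, ℝ) I (fun t : ℝ => Φ (t, x)) 0 =
        (mfderiv (𝓘(ℝ, ℝ).prod I) I Φ (0, x)).comp
          (mfderiv 𝓘(ℝ, ℝ) (𝓘(ℝ, ℝ).prod I) (fun t : ℝ => (t, x)) 0) :=
      mfderiv_comp (0 : ℝ) hΦ' hc
    have h7 : mfderiv 𝓘(ℝ, ℝ) (𝓘(ℝ, ℝ).prod I) (fun t : ℝ => (t, x)) 0 =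
        ContinuousLinearMap.inl ℝ ℝ (TangentSpace I x) := mfderiv_prod_left
    have h8 : HasDerivAt (fun t : ℝ => g (Φ (t, x)))
        (fderiv ℝ (fun t : ℝ => g (Φ (t, x))) 0 1) 0 := h4.hasFDerivAt.hasDerivAt
    convert h8 using 1
    rw [← mfderiv_eq_fderiv, h5, h6, h7]
    rfl

end Pool.Agent.H83.Geo
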