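import Mathlib
import Pool.Agent.H83.Geo.Bracket
import Pool.Agent.H83.Geo.Internal

/-! Riemannian metrics, Levi-Civita connections and smooth orthonormal frames. -/

namespace Pool.Agent.H83.Geo

open Set Filter Topology Bundle VectorField
open scoped Manifold ContDiff

variable {E : Type*} [NormedAddCommGroup E] [NormedSpace ℝ E] [FiniteDimensional ℝ E]
  {H : Type*} [TopologicalSpace H] {I : ModelWithCorners ℝ E H} [I.Boundaryless]
  {M : Type*} [TopologicalSpace M] [ChartedSpace H M] [IsManifold I ∞ M]

omit [I.Boundaryless] [FiniteDimensional ℝ E] in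
lemma SmoothVF.md {X : Π x : M, TangentSpace I x} (hX : SmoothVF X) (x : M) :
    MDifferentiableAt I I.tangent (fun x => (⟨x, X x⟩ : TangentBundle I M)) x :=
  (hX x).mdifferentiableAt (by simp)

omit [I.Boundaryless] [FiniteDimensional ℝ E] in
lemma SmoothVF.add {X Y : Π x : M, TangentSpace I x} (hX : SmoothVF X) (hY : SmoothVF Y) :
    SmoothVF (fun x => X x + Y x) := ContMDiff.add_section hX hY

omit [I.Boundaryless] [FiniteDimensional ℝ E] in
lemma SmoothVF.sub {X Y : Π x : M, TangentSpace I x} (hX : SmoothVF X) (hY : SmoothVF Y) :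
    SmoothVF (fun x => X x - Y x) := ContMDiff.sub_section hX hY

omit [I.Boundaryless] [FiniteDimensional ℝ E] in
lemma SmoothVF.smul {X : Π x : M, TangentSpace I x} {f : M → ℝ} (hf : ContMDiff I 𝓘(ℝ, ℝ) ∞ f)
    (hX : SmoothVF X) : SmoothVF (fun x => f x • X x) := ContMDiff.smul_section hf hX

omit [I.Boundaryless] [FiniteDimensional ℝ E] in
lemma SmoothVF.sum {ι : Type*} {s : Finset ι} {X : ι → Π x : M, TangentSpace I x}
    (hX : ∀ i ∈ s, SmoothVF (X i)) : SmoothVF (fun x => ∑ i ∈ s, X i x) :=
  ContMDiff.sum_section hX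

omit [I.Boundaryless] [FiniteDimensional ℝ E] in
lemma inner_smooth (g : Met I M) {X Y : Π x : M, TangentSpace I x} (hX : SmoothVF X)
    (hY : SmoothVF Y) : ContMDiff I 𝓘(ℝ, ℝ) ∞ (fun x => g.inner x (X x) (Y x)) := by
  let _ : RiemannianBundle (fun x : M => TangentSpace I x) := ⟨g.toRiemannianMetric⟩
  exact ContMDiff.inner_bundle (IB := I) (E := fun x : M => TangentSpace I x) (b := fun x => x) hX hY

omit [I.Boundaryless] [FiniteDimensional ℝ E] in
lemma inner_self_nonneg (g : Met I M) (x : M) (v : TangentSpace I x) : 0 ≤ g.inner x v v := by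
  by_cases h : v = 0
  · subst h; simp
  · exact (g.pos x v h).le

omit [I.Boundaryless] [FiniteDimensional ℝ E] in
/-- Gram–Schmidt for smooth vector fields -/
theorem exists_ortho (g : Met I M) {m : ℕ} (V : Fin m → Π x : M, TangentSpace I x)
    (hV : ∀ i, SmoothVF (V i)) (hli : ∀ x, LinearIndependent ℝ (fun i => V i x)) :
    ∃ e : Fin m → Π x : M, TangentSpace I x, (∀ a, SmoothVF (e a)) ∧
      (∀ x a b, g.inner x (e a x) (e b x) = if a = b then 1 else 0) ∧
      ∀ x a, e a x ∈ Submodule.span ℝ (Set.range fun i => V i x) := by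
  induction m with
  | zero =>
    exact ⟨fun a => a.elim0, fun a => a.elim0, fun _ a => a.elim0, fun _ a => a.elim0⟩
  | succ m ih =>
    have hli' : ∀ x, LinearIndependent ℝ (fun i : Fin m => V i.castSucc x) ∧
        V (Fin.last m) x ∉ Submodule.span ℝ (Set.range fun i : Fin m => V i.castSucc x) := by
      intro x
      have := linearIndependent_finSucc'.mp (hli x)
      exact this
    obtain ⟨e, he1, he2, he3⟩ := ih (fun i => V i.castSucc) (fun i => hV _) (fun x => (hli' x).1)
    set L := V (Fin.last m) with hL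
    set u : Π x : M, TangentSpace I x := fun x =>
      L x - ∑ a, g.inner x (L x) (e a x) • e a x with hu
    have husm : SmoothVF u := (hV _).sub (SmoothVF.sum fun a _ =>
      SmoothVF.smul (inner_smooth g (hV _) (he1 a)) (he1 a))
    have hu0 : ∀ x, u x ≠ 0 := by
      intro x hx
      apply (hli' x).2
      have h1 : L x = ∑ a, g.inner x (L x) (e a x) • e a x := sub_eq_zero.mp hx
      rw [h1]
      exact Submodule.sum_mem _ fun a _ => Submodule.smul_mem _ _ (he3 x a)
    have hue : ∀ x a, g.inner x (u x) (e a x) = 0 := by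
      intro x a
      have h1 : g.inner x (u x) (e a x) = g.inner x (L x) (e a x) -
          ∑ b, g.inner x (L x) (e b x) * g.inner x (e b x) (e a x) := by
        simp only [hu, map_sub, map_sum, map_smul, _root_.sub_apply,
          _root_.sum_apply, _root_.smul_apply, smul_eq_mul]
      rw [h1]
      simp only [he2 x]
      simp
    set q : M → ℝ := fun x => g.inner x (u x) (u x) with hq
    have hqpos : ∀ x, 0 < q x := fun x => g.pos x _ (hu0 x)
    have hqsm : ContMDiff I 𝓘(ℝ, ℝ) ∞ q := inner_smooth g husm husm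
    have hrsm : ContMDiff I 𝓘(ℝ, ℝ) ∞ (fun x => (Real.sqrt (q x))⁻¹) := by
      intro x
      have h1 : ContDiffAt ℝ ∞ (fun t : ℝ => (Real.sqrt t)⁻¹) (q x) :=
        (Real.contDiffAt_sqrt (hqpos x).ne').inv (Real.sqrt_pos.mpr (hqpos x)).ne'
      exact ContMDiffAt.comp (g := fun t : ℝ => (Real.sqrt t)⁻¹) (f := q) x h1.contMDiffAt (hqsm x)
    set w : Π x : M, TangentSpace I x := fun x => (Real.sqrt (q x))⁻¹ • u x with hw
    have hwsm : SmoothVF w := SmoothVF.smul hrsm husm
    have hww : ∀ x, g.inner x (w x) (w x) = 1 := by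
      intro x
      simp only [hw, map_smul, _root_.smul_apply, smul_eq_mul]
      have h1 : g.inner x (u x) (u x) = q x := rfl
      rw [h1]
      have h2 := Real.mul_self_sqrt (hqpos x).le
      have h3 := (Real.sqrt_pos.mpr (hqpos x)).ne'
      field_simp
      rw [sq]; exact h2.symm
    have hwe : ∀ x a, g.inner x (w x) (e a x) = 0 := by
      intro x a
      simp only [hw, map_smul, _root_.smul_apply, smul_eq_mul, hue x a, mul_zero]
    obtain ⟨F, hF1, hF2⟩ : ∃ F : Fin (m + 1) → Π x : M, TangentSpace I x,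
        F (Fin.last m) = w ∧ ∀ a : Fin m, F a.castSucc = e a :=
      ⟨fun i => Fin.lastCases (motive := fun _ => Π x : M, TangentSpace I x) w e i,
        Fin.lastCases_last, fun a => Fin.lastCases_castSucc a⟩
    refine ⟨F, ?_, ?_, ?_⟩
    · intro a
      refine Fin.lastCases ?_ (fun a => ?_) a
      · rw [hF1]; exact hwsm
      · rw [hF2]; exact he1 a
    · intro x a b
      refine Fin.lastCases ?_ (fun a => ?_) a
      · refine Fin.lastCases ?_ (fun b => ?_) b
        · rw [hF1, if_pos rfl]; exact hww x
        · rw [hF1, hF2, hwe x b, if_neg (Fin.castSucc_lt_last b).ne']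
      · refine Fin.lastCases ?_ (fun b => ?_) b
        · rw [hF1, hF2, g.symm, hwe x a, if_neg (Fin.castSucc_lt_last a).ne]
        · rw [hF2, hF2, he2 x a b]
          simp only [Fin.castSucc_inj]
    · intro x a
      have hsub : Submodule.span ℝ (Set.range fun i : Fin m => V i.castSucc x) ≤
          Submodule.span ℝ (Set.range fun i => V i x) := by
        apply Submodule.span_mono
        rintro _ ⟨i, rfl⟩
        exact ⟨i.castSucc, rfl⟩
      refine Fin.lastCases ?_ (fun a => ?_) a
      · rw [hF1]
        exact Submodule.smul_mem _ _ (Submodule.sub_mem _ (Submodule.subset_span ⟨Fin.last m, rfl⟩)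
          (Submodule.sum_mem _ fun a _ => Submodule.smul_mem _ _ (hsub (he3 x a))))
      · rw [hF2]; exact hsub (he3 x a)

end Pool.Agent.H83.Geo
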