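import Mathlib
import Pool.Agent.H83.Geo.Riem

/-! The Levi-Civita connection and its curvature in a smooth orthonormal frame. -/

namespace Pool.Agent.H83.Geo

open Set Filter Topology Bundle VectorField Finset
open scoped Manifold ContDiff

variable {E : Type*} [NormedAddCommGroup E] [NormedSpace ℝ E] [FiniteDimensional ℝ E]
  {H : Type*} [TopologicalSpace H] {I : ModelWithCorners ℝ E H} [I.Boundaryless]
  {M : Type*} [TopologicalSpace M] [ChartedSpace H M] [IsManifold I ∞ M]

section frame

variable {g : Met I M} {m : ℕ} {e : Fin m → Π x : M, TangentSpace I x}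

omit [I.Boundaryless] [FiniteDimensional ℝ E] in
lemma li_ortho (ho : ∀ x a b, g.inner x (e a x) (e b x) = if a = b then 1 else 0) (x : M) :
    LinearIndependent ℝ (fun a => e a x) := by
  rw [Fintype.linearIndependent_iff]
  intro c hc a
  have h1 : g.inner x (∑ b, c b • e b x) (e a x) = 0 := by rw [hc]; simp
  simp only [map_sum, map_smul, _root_.sum_apply, _root_.smul_apply, ho x, smul_eq_mul] at h1
  simpa using h1

omit [I.Boundaryless] in
lemma expand (hm : m = Module.finrank ℝ E)
    (ho : ∀ x a b, g.inner x (e a x) (e b x) = if a = b then 1 else 0) (x : M)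
    (v : TangentSpace I x) : v = ∑ a, g.inner x v (e a x) • e a x := by
  have hli := li_ortho ho x
  have hcard : Fintype.card (Fin m) = Module.finrank ℝ (TangentSpace I x) := by
    rw [Fintype.card_fin]; exact hm
  have : FiniteDimensional ℝ (TangentSpace I x) := inferInstanceAs (FiniteDimensional ℝ E)
  have hspan := hli.span_eq_top_of_card_eq_finrank' hcard
  have hv : v ∈ Submodule.span ℝ (Set.range fun a => e a x) := by rw [hspan]; trivial
  rw [Submodule.mem_span_range_iff_exists_fun] at hv
  obtain ⟨c, hc⟩ := hv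
  have h1 : ∀ a, g.inner x v (e a x) = c a := by
    intro a
    rw [← hc]
    simp only [map_sum, map_smul, _root_.sum_apply, _root_.smul_apply, ho x, smul_eq_mul]
    simp
  simp only [h1]
  exact hc.symm

variable {cov : CovariantDerivative I E (fun x : M => TangentSpace I x)}

/-- connection coefficients -/
noncomputable def Gf (g : Met I M) (cov : CovariantDerivative I E (fun x : M => TangentSpace I x))
    (e : Fin m → Π x : M, TangentSpace I x) (a i j : Fin m) (x : M) : ℝ :=
  g.inner x (cov (e j) x (e a x)) (e i x)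

/-- bracket coefficients -/
noncomputable def Bf (g : Met I M) (e : Fin m → Π x : M, TangentSpace I x) (a b c : Fin m)
    (x : M) : ℝ :=
  g.inner x (mlieBracket I (e a) (e b) x) (e c x)

omit [I.Boundaryless] [FiniteDimensional ℝ E] in
lemma Gf_skew (hcov : IsLC g cov) (he : ∀ a, SmoothVF (e a))
    (ho : ∀ x a b, g.inner x (e a x) (e b x) = if a = b then 1 else 0) (a i j : Fin m) (x : M) :
    Gf g cov e a j i x = - Gf g cov e a i j x := by
  have h1 := hcov.metric (e a) (e i) (e j) x ((he a).md x) ((he i).md x) ((he j).md x)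
  have h2 : (fun y => g.inner y (e i y) (e j y)) = fun _ => if i = j then (1 : ℝ) else 0 := by
    funext y; exact ho y i j
  rw [h2, mvfderiv_const] at h1
  simp only [Gf]
  have h3 : g.inner x (e i x) (cov (e j) x (e a x)) = g.inner x (cov (e j) x (e a x)) (e i x) :=
    g.symm _ _ _
  rw [h3] at h1
  have h4 : (0 : TangentSpace I x →L[ℝ] ℝ) (e a x) = 0 := rfl
  rw [h4] at h1
  linarith

omit [I.Boundaryless] [FiniteDimensional ℝ E] in
lemma Bf_eq (hcov : IsLC g cov) (he : ∀ a, SmoothVF (e a)) (a b c : Fin m) (x : M) :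
    Bf g e a b c x = Gf g cov e a c b x - Gf g cov e b c a x := by
  rw [Bf, ← hcov.torsion (e a) (e b) x ((he a).md x) ((he b).md x), map_sub, _root_.sub_apply]
  rfl

omit [I.Boundaryless] [FiniteDimensional ℝ E] in
lemma Gf_koszul (hcov : IsLC g cov) (he : ∀ a, SmoothVF (e a))
    (ho : ∀ x a b, g.inner x (e a x) (e b x) = if a = b then 1 else 0) (a i j : Fin m) (x : M) :
    Gf g cov e a i j x = (1 / 2) * (Bf g e a j i x + Bf g e i a j x - Bf g e j i a x) := by
  rw [Bf_eq hcov he, Bf_eq hcov he, Bf_eq hcov he, Gf_skew hcov he ho a i j,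
    Gf_skew hcov he ho j i a, Gf_skew hcov he ho i j a]
  ring

omit [I.Boundaryless] in
lemma bracket_smooth {X Y : Π x : M, TangentSpace I x} (hX : SmoothVF X) (hY : SmoothVF Y) :
    SmoothVF (mlieBracket I X Y) := by
  have : CompleteSpace E := FiniteDimensional.complete ℝ E
  have i2 : ∀ k : WithTop ℕ∞, k = 2 → IsManifold I k M := by
    intro k hk
    subst hk
    exact IsManifold.of_le (n := ∞) ENat.LEInfty.out
  have : IsManifold I (minSmoothness ℝ 2) M := i2 _ (minSmoothness_of_isRCLikeNormedField)
  have : IsManifold I (∞ + 1) M := inferInstanceAs (IsManifold I ∞ M)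
  intro x
  exact ContMDiffAt.mlieBracket_vectorField (m := ⊤) (n := ⊤) (hX x) (hY x) (by simp)

omit [I.Boundaryless] in
lemma Bf_smooth (he : ∀ a, SmoothVF (e a)) (a b c : Fin m) :
    ContMDiff I 𝓘(ℝ, ℝ) ∞ (Bf g e a b c) :=
  inner_smooth g (bracket_smooth (he a) (he b)) (he c)

omit [I.Boundaryless] in
lemma Gf_smooth (hcov : IsLC g cov) (he : ∀ a, SmoothVF (e a))
    (ho : ∀ x a b, g.inner x (e a x) (e b x) = if a = b then 1 else 0) (a i j : Fin m) :
    ContMDiff I 𝓘(ℝ, ℝ) ∞ (Gf g cov e a i j) := by
  have h : Gf g cov e a i j =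
      fun x => (1 / 2) * (Bf g e a j i x + Bf g e i a j x - Bf g e j i a x) := by
    funext x; exact Gf_koszul hcov he ho a i j x
  rw [h]
  exact contMDiff_const.mul (((Bf_smooth he a j i).add (Bf_smooth he i a j)).sub
    (Bf_smooth he j i a))

omit [I.Boundaryless] in
lemma bracket_expand (hm : m = Module.finrank ℝ E) (hcov : IsLC g cov) (he : ∀ a, SmoothVF (e a))
    (ho : ∀ x a b, g.inner x (e a x) (e b x) = if a = b then 1 else 0) (a b : Fin m) (x : M) :
    mlieBracket I (e a) (e b) x = ∑ f, (Gf g cov e b a f x - Gf g cov e a b f x) • e f x := by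
  rw [expand hm ho x (mlieBracket I (e a) (e b) x)]
  refine sum_congr rfl fun f _ => ?_
  congr 1
  have h := Bf_eq hcov he a b f x
  rw [Gf_skew hcov he ho a b f, Gf_skew hcov he ho b a f] at h
  have h2 : g.inner x (mlieBracket I (e a) (e b) x) (e f x) = Bf g e a b f x := rfl
  rw [h2, h]; ring

omit [I.Boundaryless] in
lemma cov_expand (hm : m = Module.finrank ℝ E)
    (ho : ∀ x a b, g.inner x (e a x) (e b x) = if a = b then 1 else 0) (b d : Fin m) (x : M) :
    cov (e d) x (e b x) = ∑ c, Gf g cov e b c d x • e c x :=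
  expand hm ho x _

omit [I.Boundaryless] [FiniteDimensional ℝ E] in
lemma cov_sum (he : ∀ a, SmoothVF (e a)) {f : Fin m → M → ℝ}
    (hf : ∀ c, ContMDiff I 𝓘(ℝ, ℝ) ∞ (f c)) (s : Finset (Fin m)) (x : M) (v : TangentSpace I x) :
    cov (fun y => ∑ c ∈ s, f c y • e c y) x v =
      ∑ c ∈ s, (mvfderiv I (f c) x v • e c x + f c x • cov (e c) x v) := by
  induction s using Finset.induction_on with
  | empty =>
    simp only [sum_empty]
    have h : (fun y : M => (0 : TangentSpace I y)) = 0 := rfl
    rw [h, cov.zero]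
    rfl
  | insert a s ha ih =>
    rw [sum_insert ha, ← ih]
    have h1 : (fun y => ∑ c ∈ insert a s, f c y • e c y) =
        (f a • e a : Π x : M, TangentSpace I x) + fun y => ∑ c ∈ s, f c y • e c y := by
      funext y
      rw [sum_insert ha]
      rfl
    have h2 : SmoothVF (f a • e a : Π x : M, TangentSpace I x) := SmoothVF.smul (hf a) (he a)
    have h3 : SmoothVF (fun y => ∑ c ∈ s, f c y • e c y) :=
      SmoothVF.sum fun c _ => SmoothVF.smul (hf c) (he c)
    rw [h1, cov.isCovariantDerivativeOnUniv.add (h2.md x) (h3.md x),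
      cov.isCovariantDerivativeOnUniv.leibniz ((he a).md x) ((hf a x).mdifferentiableAt (by simp))]
    simp only [_root_.add_apply, _root_.smul_apply, ContinuousLinearMap.smulRight_apply]
    abel

omit [I.Boundaryless] in
/-- The curvature in an orthonormal frame. -/
theorem curv_frame (hm : m = Module.finrank ℝ E) (hcov : IsLC g cov) (he : ∀ a, SmoothVF (e a))
    (ho : ∀ x a b, g.inner x (e a x) (e b x) = if a = b then 1 else 0) (a b c d : Fin m) (x : M) :
    g.inner x (curv cov (e a) (e b) (e d) x) (e c x) =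
      mvfderiv I (Gf g cov e b c d) x (e a x) - mvfderiv I (Gf g cov e a c d) x (e b x) +
      ∑ f, (Gf g cov e a c f x * Gf g cov e b f d x - Gf g cov e b c f x * Gf g cov e a f d x) -
      ∑ f, (Gf g cov e b a f x - Gf g cov e a b f x) * Gf g cov e f c d x := by
  have key : ∀ a b : Fin m, g.inner x (cov (fun y => cov (e d) y (e b y)) x (e a x)) (e c x) =
      mvfderiv I (Gf g cov e b c d) x (e a x) +
        ∑ f, Gf g cov e a c f x * Gf g cov e b f d x := by
    intro a b
    have h1 : (fun y => cov (e d) y (e b y)) = fun y => ∑ f, Gf g cov e b f d y • e f y := by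
      funext y; exact cov_expand hm ho b d y
    rw [h1, cov_sum he (fun f => Gf_smooth hcov he ho b f d)]
    simp only [map_sum, map_add, map_smul, _root_.sum_apply, _root_.add_apply, _root_.smul_apply,
      smul_eq_mul, sum_add_distrib]
    congr 1
    · simp only [ho x]
      simp
    · refine sum_congr rfl fun f _ => ?_
      rw [mul_comm]; rfl
  have key2 : g.inner x (cov (e d) x (mlieBracket I (e a) (e b) x)) (e c x) =
      ∑ f, (Gf g cov e b a f x - Gf g cov e a b f x) * Gf g cov e f c d x := by
    rw [bracket_expand hm hcov he ho a b x]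
    simp only [map_sum, map_smul, _root_.sum_apply, _root_.smul_apply, smul_eq_mul]
    rfl
  rw [curv, map_sub, map_sub, _root_.sub_apply, _root_.sub_apply, key, key, key2,
    sum_sub_distrib]
  ring

end frame

end Pool.Agent.H83.Geo
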