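import Mathlib
import Pool.Agent.H83.Geo.Riem

/-! Existence of the Levi-Civita connection. -/

namespace Pool.Agent.H83.Geo

open Set Filter Topology Bundle VectorField
open scoped Manifold ContDiff

variable {E : Type*} [NormedAddCommGroup E] [NormedSpace ℝ E] [FiniteDimensional ℝ E]
  {H : Type*} [TopologicalSpace H] {I : ModelWithCorners ℝ E H}
  {M : Type*} [TopologicalSpace M] [ChartedSpace H M] [IsManifold I ∞ M]

omit [FiniteDimensional ℝ E] in
lemma inner_md (g : Met I M) {X Y : Π x : M, TangentSpace I x} {x : M} (hX : MDV X x)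
    (hY : MDV Y x) : MDifferentiableAt I 𝓘(ℝ, ℝ) (fun x => g.inner x (X x) (Y x)) x := by
  let _ : RiemannianBundle (fun x : M => TangentSpace I x) := ⟨g.toRiemannianMetric⟩
  exact MDifferentiableAt.inner_bundle (IB := I) (F := E) (E := fun x : M => TangentSpace I x)
    (b := fun x => x) hX hY

/-- the Koszul expression for `g(∇_V σ, W)` -/
noncomputable def kz (g : Met I M) (V σ W : Π x : M, TangentSpace I x) (x : M) : ℝ :=
  (1 / 2) * (mvfderiv I (fun y => g.inner y (σ y) (W y)) x (V x) +
    mvfderiv I (fun y => g.inner y (W y) (V y)) x (σ x) -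
    mvfderiv I (fun y => g.inner y (V y) (σ y)) x (W x) +
    g.inner x (mlieBracket I V σ x) (W x) - g.inner x (mlieBracket I σ W x) (V x) +
    g.inner x (mlieBracket I W V x) (σ x))

section
variable (g : Met I M) {V V' σ σ' W W' X : Π x : M, TangentSpace I x} {x : M} {f : M → ℝ}

omit [FiniteDimensional ℝ E] in
lemma dinner_add_left (hV : MDV V x) (hV' : MDV V' x) (hW : MDV W x) (v : TangentSpace I x) :
    mvfderiv I (fun y => g.inner y ((V + V') y) (W y)) x v =
      mvfderiv I (fun y => g.inner y (V y) (W y)) x v +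
      mvfderiv I (fun y => g.inner y (V' y) (W y)) x v := by
  have h : (fun y => g.inner y ((V + V') y) (W y)) =
      (fun y => g.inner y (V y) (W y)) + fun y => g.inner y (V' y) (W y) := by
    funext y; simp
  rw [h, mvfderiv_add (inner_md g hV hW) (inner_md g hV' hW)]
  rfl

omit [FiniteDimensional ℝ E] in
lemma dinner_smul_left (hf : MDifferentiableAt I 𝓘(ℝ, ℝ) f x) (hV : MDV V x) (hW : MDV W x)
    (v : TangentSpace I x) :
    mvfderiv I (fun y => g.inner y ((f • V) y) (W y)) x v =
      f x * mvfderiv I (fun y => g.inner y (V y) (W y)) x v +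
      mvfderiv I f x v * g.inner x (V x) (W x) := by
  have h : (fun y => g.inner y ((f • V) y) (W y)) = f * fun y => g.inner y (V y) (W y) := by
    funext y; simp
  rw [h, mvfderiv_mul hf (inner_md g hV hW)]
  simp only [_root_.add_apply, _root_.smul_apply, smul_eq_mul]
  ring

omit [FiniteDimensional ℝ E] in
lemma dinner_symm (v : TangentSpace I x) :
    mvfderiv I (fun y => g.inner y (V y) (W y)) x v =
      mvfderiv I (fun y => g.inner y (W y) (V y)) x v := by
  have h : (fun y => g.inner y (V y) (W y)) = fun y => g.inner y (W y) (V y) := by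
    funext y; exact g.symm _ _ _
  rw [h]

lemma kz_add1 (hV : MDV V x) (hV' : MDV V' x) (hσ : MDV σ x) (hW : MDV W x) :
    kz g (V + V') σ W x = kz g V σ W x + kz g V' σ W x := by
  have : CompleteSpace E := FiniteDimensional.complete ℝ E
  have i2 : IsManifold I 2 M := IsManifold.of_le (n := ∞) ENat.LEInfty.out
  simp only [kz]
  rw [mlieBracket_add_left hV hV', mlieBracket_add_right hV hV', dinner_add_left g hV hV' hσ,
    dinner_symm g (V := W) (W := V + V'), dinner_add_left g hV hV' hW,
    dinner_symm g (V := W) (W := V), dinner_symm g (V := W) (W := V')]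
  simp only [Pi.add_apply, map_add, _root_.add_apply]
  ring

omit [FiniteDimensional ℝ E] in
lemma dinner_add_right (hV : MDV V x) (hW : MDV W x) (hW' : MDV W' x) (v : TangentSpace I x) :
    mvfderiv I (fun y => g.inner y (V y) ((W + W') y)) x v =
      mvfderiv I (fun y => g.inner y (V y) (W y)) x v +
      mvfderiv I (fun y => g.inner y (V y) (W' y)) x v := by
  rw [dinner_symm g, dinner_add_left g hW hW' hV, dinner_symm g (V := W), dinner_symm g (V := W')]

omit [FiniteDimensional ℝ E] in
lemma dinner_smul_right (hf : MDifferentiableAt I 𝓘(ℝ, ℝ) f x) (hV : MDV V x) (hW : MDV W x)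
    (v : TangentSpace I x) :
    mvfderiv I (fun y => g.inner y (V y) ((f • W) y)) x v =
      f x * mvfderiv I (fun y => g.inner y (V y) (W y)) x v +
      mvfderiv I f x v * g.inner x (V x) (W x) := by
  rw [dinner_symm g, dinner_smul_left g hf hW hV, dinner_symm g (V := W), g.symm x (W x)]

lemma kz_smul1 (hf : MDifferentiableAt I 𝓘(ℝ, ℝ) f x) (hV : MDV V x) (hσ : MDV σ x)
    (hW : MDV W x) : kz g (f • V) σ W x = f x * kz g V σ W x := by
  have : CompleteSpace E := FiniteDimensional.complete ℝ E
  have i2 : IsManifold I 2 M := IsManifold.of_le (n := ∞) ENat.LEInfty.out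
  simp only [kz]
  rw [mlieBracket_smul_left hf hV, mlieBracket_smul_right hf hV, dinner_smul_left g hf hV hσ,
    dinner_smul_right g hf hW hV]
  simp only [Pi.smul_apply', map_add, map_smul, _root_.add_apply, _root_.smul_apply, smul_eq_mul,
    neg_smul, map_neg, _root_.neg_apply]
  rw [g.symm x (V x) (σ x), g.symm x (W x) (V x)]
  ring

lemma kz_add3 (hV : MDV V x) (hσ : MDV σ x) (hW : MDV W x) (hW' : MDV W' x) :
    kz g V σ (W + W') x = kz g V σ W x + kz g V σ W' x := by
  have : CompleteSpace E := FiniteDimensional.complete ℝ E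
  have i2 : IsManifold I 2 M := IsManifold.of_le (n := ∞) ENat.LEInfty.out
  simp only [kz]
  rw [mlieBracket_add_left hW hW', mlieBracket_add_right hW hW', dinner_add_left g hW hW' hV,
    dinner_add_right g hσ hW hW']
  simp only [Pi.add_apply, map_add, _root_.add_apply]
  ring

lemma kz_smul3 (hf : MDifferentiableAt I 𝓘(ℝ, ℝ) f x) (hV : MDV V x) (hσ : MDV σ x)
    (hW : MDV W x) : kz g V σ (f • W) x = f x * kz g V σ W x := by
  have : CompleteSpace E := FiniteDimensional.complete ℝ E
  have i2 : IsManifold I 2 M := IsManifold.of_le (n := ∞) ENat.LEInfty.out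
  simp only [kz]
  rw [mlieBracket_smul_left hf hW, mlieBracket_smul_right hf hW, dinner_smul_left g hf hW hV,
    dinner_smul_right g hf hσ hW]
  simp only [Pi.smul_apply', map_add, map_smul, _root_.add_apply, _root_.smul_apply, smul_eq_mul,
    neg_smul, map_neg, _root_.neg_apply]
  rw [g.symm x (W x) (V x), g.symm x (W x) (σ x)]
  ring

lemma kz_add2 (hV : MDV V x) (hσ : MDV σ x) (hσ' : MDV σ' x) (hW : MDV W x) :
    kz g V (σ + σ') W x = kz g V σ W x + kz g V σ' W x := by
  have : CompleteSpace E := FiniteDimensional.complete ℝ E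
  have i2 : IsManifold I 2 M := IsManifold.of_le (n := ∞) ENat.LEInfty.out
  simp only [kz]
  rw [mlieBracket_add_left hσ hσ', mlieBracket_add_right hσ hσ', dinner_add_left g hσ hσ' hW,
    dinner_add_right g hV hσ hσ']
  simp only [Pi.add_apply, map_add, _root_.add_apply]
  ring

lemma kz_smul2 (hf : MDifferentiableAt I 𝓘(ℝ, ℝ) f x) (hV : MDV V x) (hσ : MDV σ x)
    (hW : MDV W x) : kz g V (f • σ) W x =
      f x * kz g V σ W x + mvfderiv I f x (V x) * g.inner x (σ x) (W x) := by
  have : CompleteSpace E := FiniteDimensional.complete ℝ E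
  have i2 : IsManifold I 2 M := IsManifold.of_le (n := ∞) ENat.LEInfty.out
  simp only [kz]
  rw [mlieBracket_smul_left hf hσ, mlieBracket_smul_right hf hσ, dinner_smul_left g hf hσ hW,
    dinner_smul_right g hf hV hσ]
  simp only [Pi.smul_apply', map_add, map_smul, _root_.add_apply, _root_.smul_apply, smul_eq_mul,
    neg_smul, map_neg, _root_.neg_apply]
  rw [g.symm x (σ x) (V x)]
  ring

end

omit [FiniteDimensional ℝ E] in
lemma kz_torsion (g : Met I M) (X Y W : Π x : M, TangentSpace I x) (x : M) :
    kz g X Y W x - kz g Y X W x = g.inner x (mlieBracket I X Y x) (W x) := by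
  simp only [kz]
  rw [mlieBracket_swap_apply (V := Y) (W := X), mlieBracket_swap_apply (V := W) (W := Y),
    mlieBracket_swap_apply (V := X) (W := W), dinner_symm g (V := Y) (W := X),
    dinner_symm g (V := X) (W := W), dinner_symm g (V := Y) (W := W)]
  simp only [map_neg, _root_.neg_apply]
  ring

omit [FiniteDimensional ℝ E] in
lemma kz_metric (g : Met I M) (X Y Z : Π x : M, TangentSpace I x) (x : M) :
    kz g X Y Z x + kz g X Z Y x = mvfderiv I (fun y => g.inner y (Y y) (Z y)) x (X x) := by
  simp only [kz]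
  rw [mlieBracket_swap_apply (V := Z) (W := Y), mlieBracket_swap_apply (V := Y) (W := X),
    mlieBracket_swap_apply (V := Z) (W := X), dinner_symm g (V := Z) (W := Y),
    dinner_symm g (V := Y) (W := X), dinner_symm g (V := Z) (W := X)]
  simp only [map_neg, _root_.neg_apply]
  ring

lemma kz_tens1 (g : Met I M) {σ W : Π x : M, TangentSpace I x} {x : M} (hσ : MDV σ x)
    (hW : MDV W x) : TensorialAt I E (fun V : Π x : M, TangentSpace I x => kz g V σ W x) x where
  smul hf hV := by rw [smul_eq_mul]; exact kz_smul1 g hf hV hσ hW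
  add hV hV' := kz_add1 g hV hV' hσ hW

lemma kz_tens3 (g : Met I M) {σ V : Π x : M, TangentSpace I x} {x : M} (hσ : MDV σ x)
    (hV : MDV V x) : TensorialAt I E (fun W : Π x : M, TangentSpace I x => kz g V σ W x) x where
  smul hf hW := by rw [smul_eq_mul]; exact kz_smul3 g hf hV hσ hW
  add hW hW' := kz_add3 g hV hσ hW hW'

/-- the Koszul bilinear form -/
noncomputable def kzB (g : Met I M) {σ : Π x : M, TangentSpace I x} {x : M} (hσ : MDV σ x) :
    TangentSpace I x →L[ℝ] TangentSpace I x →L[ℝ] ℝ :=
  TensorialAt.mkHom₂ (I := I) (F := E) (F' := E) (fun V W => kz g V σ W x) x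
    (fun _ hW => kz_tens1 g hσ hW) (fun _ hV => kz_tens3 g hσ hV)

lemma kzB_apply (g : Met I M) {σ V W : Π x : M, TangentSpace I x} {x : M} (hσ : MDV σ x)
    (hV : MDV V x) (hW : MDV W x) : kzB g hσ (V x) (W x) = kz g V σ W x :=
  TensorialAt.mkHom₂_apply (I := I) (F := E) (F' := E) (Φ := fun V W => kz g V σ W x)
    (fun _ hW => kz_tens1 g hσ hW) (fun _ hV => kz_tens3 g hσ hV) hV hW

omit [FiniteDimensional ℝ E] in
lemma g_nondeg (g : Met I M) {x : M} {v v' : TangentSpace I x}
    (h : ∀ w, g.inner x v w = g.inner x v' w) : v = v' := by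
  by_contra hne
  have h1 : v - v' ≠ 0 := sub_ne_zero.mpr hne
  have h2 := g.pos x (v - v') h1
  have h3 : g.inner x (v - v') (v - v') = g.inner x v (v - v') - g.inner x v' (v - v') := by
    rw [map_sub (g.inner x)]; rfl
  rw [h3, h (v - v'), sub_self] at h2
  exact lt_irrefl _ h2

/-- Riesz representation for the metric -/
lemma riesz (g : Met I M) (x : M) (B : TangentSpace I x →L[ℝ] TangentSpace I x →L[ℝ] ℝ) :
    ∃ L : TangentSpace I x →L[ℝ] TangentSpace I x, ∀ v w, g.inner x (L v) w = B v w := by
  have i1 : FiniteDimensional ℝ (TangentSpace I x) := inferInstanceAs (FiniteDimensional ℝ E)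
  have i2 : T2Space (TangentSpace I x) := inferInstanceAs (T2Space E)
  let φ : TangentSpace I x →ₗ[ℝ] (TangentSpace I x →ₗ[ℝ] ℝ) :=
    { toFun := fun v => (g.inner x v).toLinearMap
      map_add' := fun v w => by ext u; simp
      map_smul' := fun r v => by ext u; simp }
  have hφ : Function.Injective φ := by
    intro v v' h
    apply g_nondeg g
    intro w
    exact congrArg (fun l : TangentSpace I x →ₗ[ℝ] ℝ => l w) h
  let Φ := LinearMap.linearEquivOfInjective φ hφ (Subspace.dual_finrank_eq (K := ℝ)
    (V := TangentSpace I x)).symm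
  let ψ : TangentSpace I x →ₗ[ℝ] (TangentSpace I x →ₗ[ℝ] ℝ) :=
    { toFun := fun v => (B v).toLinearMap
      map_add' := fun v w => by ext u; simp
      map_smul' := fun r v => by ext u; simp }
  refine ⟨LinearMap.toContinuousLinearMap (Φ.symm.toLinearMap ∘ₗ ψ), fun v w => ?_⟩
  have h1 : φ (Φ.symm (ψ v)) = ψ v := Φ.apply_symm_apply (ψ v)
  exact congrArg (fun l : TangentSpace I x →ₗ[ℝ] ℝ => l w) h1

/-- **Existence of the Levi-Civita connection.** -/
theorem exists_LC (g : Met I M) :
    ∃ nabla : CovariantDerivative I E (fun x : M => TangentSpace I x), IsLC g nabla := by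
  classical
  have i1 : IsManifold I 1 M := IsManifold.of_le (n := ∞) (by simp)
  have hL : ∀ (σ : Π x : M, TangentSpace I x) (x : M), ∃ L : TangentSpace I x →L[ℝ] TangentSpace I x,
      ∀ hσ : MDV σ x, ∀ v w, g.inner x (L v) w = kzB g hσ v w := by
    intro σ x
    by_cases hσ : MDV σ x
    · obtain ⟨L, hL⟩ := riesz g x (kzB g hσ)
      exact ⟨L, fun _ => hL⟩
    · exact ⟨0, fun h => absurd h hσ⟩
  choose L hL using hL
  have key : ∀ (σ V W : Π x : M, TangentSpace I x) (x : M), MDV σ x → MDV V x → MDV W x →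
      g.inner x (L σ x (V x)) (W x) = kz g V σ W x := by
    intro σ V W x hσ hV hW
    rw [hL σ x hσ, kzB_apply g hσ hV hW]
  have hext : ∀ {x : M} (v : TangentSpace I x), MDV (FiberBundle.extend E v) x :=
    fun v => FiberBundle.mdifferentiableAt_extend I E v
  have hextv : ∀ {x : M} (v : TangentSpace I x), FiberBundle.extend E v x = v :=
    fun v => FiberBundle.extend_apply_self E v
  have key2 : ∀ (σ : Π x : M, TangentSpace I x) (x : M) (v w : TangentSpace I x), MDV σ x →
      g.inner x (L σ x v) w = kz g (FiberBundle.extend E v) σ (FiberBundle.extend E w) x := by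
    intro σ x v w hσ
    have := key σ (FiberBundle.extend E v) (FiberBundle.extend E w) x hσ (hext v) (hext w)
    rwa [hextv, hextv] at this
  refine ⟨⟨L, ⟨?_, ?_⟩⟩, ⟨?_, ?_⟩⟩
  · intro σ σ' x hσ hσ' _
    ext v
    apply g_nondeg g
    intro w
    rw [key2 (σ + σ') x v w (mdifferentiableAt_add_section hσ hσ'), kz_add2 g (hext v) hσ hσ' (hext w),
      ← key2 σ x v w hσ, ← key2 σ' x v w hσ', _root_.add_apply, map_add, _root_.add_apply]
  · intro σ f x hσ hf _
    ext v
    apply g_nondeg g
    intro w
    rw [key2 (f • σ) x v w (hf.smul_section hσ), kz_smul2 g hf (hext v) hσ (hext w),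
      ← key2 σ x v w hσ, hextv, hextv]
    simp
  · intro X Y x hX hY
    apply g_nondeg g
    intro w
    have h1 := key Y X (FiberBundle.extend E w) x hY hX (hext w)
    have h2 := key X Y (FiberBundle.extend E w) x hX hY (hext w)
    rw [hextv] at h1 h2
    have h3 : g.inner x (L Y x (X x) - L X x (Y x)) w =
        g.inner x (L Y x (X x)) w - g.inner x (L X x (Y x)) w := by
      rw [map_sub (g.inner x)]; rfl
    refine h3.trans ?_
    rw [h1, h2]
    exact (kz_torsion g X Y _ x).trans (by rw [hextv])
  · intro X Y Z x hX hY hZ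
    have h1 := key Y X Z x hY hX hZ
    have h2 := key Z X Y x hZ hX hY
    have h3 : g.inner x (Y x) (L Z x (X x)) = g.inner x (L Z x (X x)) (Y x) := g.symm _ _ _
    change _ = g.inner x (L Y x (X x)) (Z x) + g.inner x (Y x) (L Z x (X x))
    rw [h3, h1, h2]
    exact (kz_metric g X Y Z x).symm

end Pool.Agent.H83.Geo
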