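import Mathlib

/-! The radial retraction onto the unit sphere is smooth. -/

namespace Pool.Agent.H83.Geo

open Set Filter Topology Metric
open scoped Manifold ContDiff

variable {n : ℕ}

/-- the ambient Euclidean space -/
abbrev EE (n : ℕ) := EuclideanSpace ℝ (Fin (n + 1))

/-- the unit sphere -/
abbrev SS (n : ℕ) := sphere (0 : EE n) 1

instance factEE (n : ℕ) : Fact (Module.finrank ℝ (EE n) = n + 1) := ⟨by simp⟩

instance (n : ℕ) : Nonempty (SS n) := ⟨⟨EuclideanSpace.single 0 1, by simp⟩⟩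

open Classical in
/-- the radial retraction -/
noncomputable def ret (y : EE n) : SS n :=
  if h : y = 0 then Classical.arbitrary _ else ⟨‖y‖⁻¹ • y, by
    rw [mem_sphere_iff_norm, sub_zero, norm_smul, norm_inv, norm_norm]
    exact inv_mul_cancel₀ (norm_ne_zero_iff.mpr h)⟩

lemma ret_coe {y : EE n} (h : y ≠ 0) : (ret y : EE n) = ‖y‖⁻¹ • y := by
  rw [ret, dif_neg h]

lemma ret_sphere (x : SS n) : ret (x : EE n) = x := by
  have hx : ‖(x : EE n)‖ = 1 := by simp
  have h0 : (x : EE n) ≠ 0 := by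
    intro h; rw [h, norm_zero] at hx; exact zero_ne_one hx
  apply Subtype.ext
  rw [ret_coe h0, hx, inv_one, one_smul]

lemma contMDiffAt_ret {y : EE n} (h : y ≠ 0) :
    ContMDiffAt 𝓘(ℝ, EE n) (𝓡 n) ∞ (ret : EE n → SS n) y := by
  set U : TopologicalSpace.Opens (EE n) := ⟨{0}ᶜ, isOpen_compl_singleton⟩
  have hU : ∀ u : U, (u : EE n) ≠ 0 := fun u => u.2
  set f : U → EE n := fun u => ‖(u : EE n)‖⁻¹ • (u : EE n)
  have hf : ContMDiff 𝓘(ℝ, EE n) 𝓘(ℝ, EE n) ∞ f := by
    intro u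
    have : ContDiffAt ℝ ∞ (fun y : EE n => ‖y‖⁻¹ • y) (u : EE n) :=
      ((contDiffAt_norm ℝ (hU u)).inv (norm_ne_zero_iff.mpr (hU u))).smul contDiffAt_id
    exact contMDiffAt_subtype_iff.mpr this.contMDiffAt
  have hf' : ∀ u, f u ∈ sphere (0 : EE n) 1 := by
    intro u
    rw [mem_sphere_iff_norm, sub_zero, norm_smul, norm_inv, norm_norm]
    exact inv_mul_cancel₀ (norm_ne_zero_iff.mpr (hU u))
  have h1 := hf.codRestrict_sphere (n := n) hf'
  have h2 : (Set.codRestrict _ _ hf' : U → sphere (0 : EE n) 1) = fun u : U => ret (u : EE n) := by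
    funext u
    apply Subtype.ext
    rw [ret_coe (hU u)]
    rfl
  rw [h2] at h1
  exact contMDiffAt_subtype_iff.mp (h1 ⟨y, h⟩)

end Pool.Agent.H83.Geo
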