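import Mathlib
import Pool.Agent.H83.Curv.S3Main
import Pool.Agent.H83.Geo.FlowField
import Pool.Agent.H83.Geo.SphRet
import Pool.Agent.H83.Geo.Bracket

/-! Smooth functions and vector fields on the product of two 3-spheres. -/

namespace Pool.Agent.H83.Geo

open Set Filter Topology Bundle Metric Finset
open scoped Manifold ContDiff
open Curv

/-- the product of two 3-spheres -/
abbrev M3 := Sph3 × Sph3

/-- its model -/
noncomputable abbrev I3 := (𝓡 3).prod (𝓡 3)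

/-- the model vector space -/
abbrev W3 := EuclideanSpace ℝ (Fin 3) × EuclideanSpace ℝ (Fin 3)

instance factE4 : Fact (Module.finrank ℝ E4 = 3 + 1) := ⟨by simp⟩

/-- the retraction onto the product of spheres -/
noncomputable def retM (y : E8) : M3 := (ret (n := 3) y.1, ret (n := 3) y.2)

lemma KS_ne {y : E8} (h : y ∈ KS) : y.1 ≠ 0 ∧ y.2 ≠ 0 :=
  ⟨norm_ne_zero_iff.mp (by rw [h.1]; exact one_ne_zero),
    norm_ne_zero_iff.mp (by rw [h.2]; exact one_ne_zero)⟩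

lemma contMDiffAt_retM {y : E8} (h : y ∈ KS) : ContMDiffAt 𝓘(ℝ, E8) I3 ∞ retM y := by
  have h1 : ContMDiffAt 𝓘(ℝ, E8) (𝓡 3) ∞ (fun y : E8 => ret (n := 3) y.1) y :=
    ContMDiffAt.comp y (contMDiffAt_ret (n := 3) (KS_ne h).1) contDiffAt_fst.contMDiffAt
  have h2 : ContMDiffAt 𝓘(ℝ, E8) (𝓡 3) ∞ (fun y : E8 => ret (n := 3) y.2) y :=
    ContMDiffAt.comp y (contMDiffAt_ret (n := 3) (KS_ne h).2) contDiffAt_snd.contMDiffAt
  exact h1.prodMk h2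

lemma retM_mkS (p : M3) : retM (mkS p) = p :=
  Prod.ext (ret_sphere (n := 3) p.1) (ret_sphere (n := 3) p.2)

lemma mkS_retM (y : KS) : mkS (retM y) = y := by
  apply Subtype.ext
  apply Prod.ext
  · have := ret_coe (n := 3) (KS_ne y.2).1
    change (ret (n := 3) y.1.1 : E4) = _
    rw [this, y.2.1, inv_one, one_smul]
  · have := ret_coe (n := 3) (KS_ne y.2).2
    change (ret (n := 3) y.1.2 : E4) = _
    rw [this, y.2.2, inv_one, one_smul]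

/-- transfer of smooth functions -/
noncomputable def tr (f : M3 → ℝ) (hf : ContMDiff I3 𝓘(ℝ, ℝ) ∞ f) : AS :=
  ⟨fun y => f (retM y), f ∘ retM, fun y hy =>
    (ContMDiffAt.comp y (hf (retM y)) (contMDiffAt_retM hy)).contDiffAt, fun _ => rfl⟩

lemma tr_apply {f : M3 → ℝ} (hf : ContMDiff I3 𝓘(ℝ, ℝ) ∞ f) (x : M3) :
    (tr f hf).1 (mkS x) = f x := by
  change f (retM (mkS x)) = f x
  rw [retM_mkS]

lemma AS_ext {f g : AS} (h : ∀ x : M3, f.1 (mkS x) = g.1 (mkS x)) : f = g := by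
  apply Subtype.ext
  funext y
  rw [← mkS_retM y]
  exact h _

/-- the rotations on the sphere -/
noncomputable def rotS (j : Fin 3) (t : ℝ) (x : Sph3) : Sph3 := ⟨rotQ j t x, by
  rw [mem_sphere_iff_norm, sub_zero, norm_rotQ]
  simp⟩

lemma contMDiff_rotS (j : Fin 3) : ContMDiff (𝓘(ℝ, ℝ).prod (𝓡 3)) (𝓡 3) ∞
    (fun p : ℝ × Sph3 => rotS j p.1 p.2) := by
  have hc : ContMDiff (𝓘(ℝ, ℝ).prod (𝓡 3)) 𝓘(ℝ, E4) ∞ (fun p : ℝ × Sph3 => (p.2 : E4)) :=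
    (contMDiff_coe_sphere (n := 3)).comp contMDiff_snd
  have hcos : ContMDiff (𝓘(ℝ, ℝ).prod (𝓡 3)) 𝓘(ℝ, ℝ) ∞ (fun p : ℝ × Sph3 => Real.cos p.1) :=
    Real.contDiff_cos.contMDiff.comp contMDiff_fst
  have hsin : ContMDiff (𝓘(ℝ, ℝ).prod (𝓡 3)) 𝓘(ℝ, ℝ) ∞ (fun p : ℝ × Sph3 => Real.sin p.1) :=
    Real.contDiff_sin.contMDiff.comp contMDiff_fst
  have hQ : ContMDiff (𝓘(ℝ, ℝ).prod (𝓡 3)) 𝓘(ℝ, E4) ∞ (fun p : ℝ × Sph3 => Q j (p.2 : E4)) :=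
    (Q j).contDiff.contMDiff.comp hc
  have h : ContMDiff (𝓘(ℝ, ℝ).prod (𝓡 3)) 𝓘(ℝ, E4) ∞ (fun p : ℝ × Sph3 => rotQ j p.1 (p.2 : E4)) :=
    (hcos.smul hc).add (hsin.smul hQ)
  exact h.codRestrict_sphere (n := 3) (fun p => (rotS j p.1 p.2).2)

/-- the flows on the product -/
noncomputable def PhiM (i : Fin 6) (p : ℝ × M3) : M3 :=
  if fstIdx i then (rotS (loc i) p.1 p.2.1, p.2.2) else (p.2.1, rotS (loc i) p.1 p.2.2)

lemma ss1 : ContMDiff (𝓘(ℝ, ℝ).prod I3) (𝓘(ℝ, ℝ).prod (𝓡 3)) ∞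
    (fun p : ℝ × M3 => (p.1, p.2.1)) :=
  contMDiff_fst.prodMk (contMDiff_fst.comp contMDiff_snd)

lemma ss2 : ContMDiff (𝓘(ℝ, ℝ).prod I3) (𝓘(ℝ, ℝ).prod (𝓡 3)) ∞
    (fun p : ℝ × M3 => (p.1, p.2.2)) :=
  contMDiff_fst.prodMk (contMDiff_snd.comp contMDiff_snd)

lemma ss3 : ContMDiff (𝓘(ℝ, ℝ).prod I3) (𝓡 3) ∞ (fun p : ℝ × M3 => p.2.1) :=
  contMDiff_fst.comp contMDiff_snd

lemma ss4 : ContMDiff (𝓘(ℝ, ℝ).prod I3) (𝓡 3) ∞ (fun p : ℝ × M3 => p.2.2) :=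
  contMDiff_snd.comp contMDiff_snd

lemma ss5 (j : Fin 3) :
    ContMDiff (𝓘(ℝ, ℝ).prod I3) (𝓡 3) ∞ (fun p : ℝ × M3 => rotS j p.1 p.2.1) := by
  have := ContMDiff.comp (contMDiff_rotS j) ss1
  exact this

lemma ss6 (j : Fin 3) :
    ContMDiff (𝓘(ℝ, ℝ).prod I3) (𝓡 3) ∞ (fun p : ℝ × M3 => rotS j p.1 p.2.2) := by
  have := ContMDiff.comp (contMDiff_rotS j) ss2
  exact this

lemma ss7 (j : Fin 3) : ContMDiff (𝓘(ℝ, ℝ).prod I3) I3 ∞
    (fun p : ℝ × M3 => (rotS j p.1 p.2.1, p.2.2)) := (ss5 j).prodMk ss4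

lemma ss8 (j : Fin 3) : ContMDiff (𝓘(ℝ, ℝ).prod I3) I3 ∞
    (fun p : ℝ × M3 => (p.2.1, rotS j p.1 p.2.2)) := ss3.prodMk (ss6 j)

lemma contMDiff_PhiM (i : Fin 6) : ContMDiff (𝓘(ℝ, ℝ).prod I3) I3 ∞ (PhiM i) := by
  by_cases h : fstIdx i
  · have e : PhiM i = fun p => (rotS (loc i) p.1 p.2.1, p.2.2) := by
      funext p; rw [PhiM, if_pos h]
    rw [e]
    exact ss7 (loc i)
  · have e : PhiM i = fun p => (p.2.1, rotS (loc i) p.1 p.2.2) := by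
      funext p; rw [PhiM, if_neg h]
    rw [e]
    exact ss8 (loc i)

lemma mkS_PhiM_coe (i : Fin 6) (t : ℝ) (x : M3) :
    (mkS (PhiM i (t, x)) : E8) = flowS i t (mkS x) := by
  by_cases h : fstIdx i
  · have e1 : PhiM i (t, x) = (rotS (loc i) t x.1, x.2) := by rw [PhiM, if_pos h]
    have e2 : flowS i t (mkS x) = (rotQ (loc i) t x.1.1, x.2.1) := by rw [flowS, if_pos h]; rfl
    rw [e1, e2]; rfl
  · have e1 : PhiM i (t, x) = (x.1, rotS (loc i) t x.2) := by rw [PhiM, if_neg h]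
    have e2 : flowS i t (mkS x) = (x.1.1, rotQ (loc i) t x.2.1) := by rw [flowS, if_neg h]; rfl
    rw [e1, e2]; rfl

lemma mkS_PhiM (i : Fin 6) (t : ℝ) (x : M3) :
    mkS (PhiM i (t, x)) = ⟨flowS i t (mkS x), (FS i).maps t _ (mkS x).2⟩ :=
  Subtype.ext (mkS_PhiM_coe i t x)

lemma PhiM_zero (i : Fin 6) (x : M3) : PhiM i (0, x) = x := by
  have h1 : mkS (PhiM i (0, x)) = mkS x := by
    rw [mkS_PhiM]
    exact Subtype.ext ((FS i).zero _)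
  rw [← retM_mkS (PhiM i (0, x)), h1, retM_mkS]

/-- the six vector fields -/
noncomputable def VV (i : Fin 6) : Π x : M3, TangentSpace I3 x :=
  Classical.choose (exists_flow_field (PhiM i) (contMDiff_PhiM i) (PhiM_zero i))

lemma VV_smooth (i : Fin 6) :
    ContMDiff I3 I3.tangent ∞ (fun x => (⟨x, VV i x⟩ : TangentBundle I3 M3)) :=
  (Classical.choose_spec (exists_flow_field (PhiM i) (contMDiff_PhiM i) (PhiM_zero i))).1

lemma VV_deriv (i : Fin 6) {f : M3 → ℝ} (hf : ContMDiff I3 𝓘(ℝ, ℝ) ∞ f) (x : M3) :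
    mvfderiv I3 f x (VV i x) = (XS i (tr f hf)).1 (mkS x) := by
  have h1 := (Classical.choose_spec (exists_flow_field (PhiM i) (contMDiff_PhiM i)
    (PhiM_zero i))).2 f x ((hf x).mdifferentiableAt (by simp))
  have h2 := dirD_hasDerivAt (FS i) (tr f hf) (mkS x) 0
  have h3 : (fun t => f (PhiM i (t, x))) = fun t => (tr f hf).1
      ⟨(FS i).φ t (mkS x), (FS i).maps t _ (mkS x).2⟩ := by
    funext t
    rw [← tr_apply hf (PhiM i (t, x)), mkS_PhiM]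
    rfl
  rw [h3] at h1
  have h4 := h1.unique h2
  refine h4.trans ?_
  have h5 : (⟨(FS i).φ 0 (mkS x), (FS i).maps 0 _ (mkS x).2⟩ : KS) = mkS x :=
    Subtype.ext ((FS i).zero _)
  rw [h5]; rfl

end Pool.Agent.H83.Geo
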