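import Mathlib
import Pool.Agent.H83.Geo.S3Fields
import Pool.Agent.H83.Geo.LC

/-! From a Riemannian metric on the product of two 3-spheres to frame data. -/

namespace Pool.Agent.H83.Geo

open Set Filter Topology Bundle VectorField Finset
open scoped Manifold ContDiff
open Curv

/-- commutator of two vector fields, in terms of a frame of derivations -/
lemma toDer_comm {ι A : Type*} [Fintype ι] [CommRing A] [Algebra ℝ A] (X : ι → Derivation ℝ A A)
    (c : ι → ι → ι → A)
    (hX : ∀ i j x, X i (X j x) - X j (X i x) = ∑ k, c i j k * X k x) (u v : ι → A) (x : A) :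
    toDer X u (toDer X v x) - toDer X v (toDer X u x) =
      ∑ k, (toDer X u (v k) - toDer X v (u k) + ∑ i, ∑ j, c i j k * u i * v j) * X k x := by
  have h1 : ∀ u v : ι → A, toDer X u (toDer X v x) =
      ∑ k, toDer X u (v k) * X k x + ∑ i, ∑ j, u i * v j * X i (X j x) := by
    intro u v
    rw [toDer_apply X v x, map_sum]
    simp only [Derivation.leibniz, smul_eq_mul, sum_add_distrib]
    rw [add_comm]
    congr 1
    · exact sum_congr rfl fun k _ => mul_comm _ _
    · rw [sum_comm]
      refine sum_congr rfl fun j _ => ?_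
      rw [toDer_apply, mul_sum]
      exact sum_congr rfl fun i _ => by ring
  have h3 : ∑ i, ∑ j, v i * u j * X i (X j x) = ∑ i, ∑ j, u i * v j * X j (X i x) := by
    rw [sum_comm]
    exact sum_congr rfl fun i _ => sum_congr rfl fun j _ => by ring
  have h4 : ∑ k, (∑ i, ∑ j, c i j k * u i * v j) * X k x =
      ∑ i, ∑ j, u i * v j * (X i (X j x) - X j (X i x)) := by
    simp only [sum_mul, hX, mul_sum]
    rw [sum_comm]
    refine sum_congr rfl fun i _ => ?_
    rw [sum_comm]
    exact sum_congr rfl fun j _ => sum_congr rfl fun k _ => by ring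
  rw [h1, h1, h3]
  simp only [add_mul, sub_mul, sum_add_distrib, sum_sub_distrib]
  rw [h4]
  simp only [mul_sub, sum_sub_distrib]
  ring

/-- the six fields are linearly independent at each point -/
lemma pt_ind (z : KS) (c : Fin 6 → ℝ) (h : ∀ v : E8, ∑ i, c i * (XS i (lin v)).1 z = 0) :
    c = 0 := by
  funext j
  have h1 : ∀ v : E8, ∑ i, c i * (inner ℝ v.1 (TT i z).1 + inner ℝ v.2 (TT i z).2) = 0 := by
    intro v
    refine Eq.trans (sum_congr rfl fun i _ => ?_) (h v)
    rw [XS_lin_apply]
  by_cases hj : fstIdx j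
  · have h2 := h1 (Q (loc j) z.1.1, 0)
    rw [sum_eq_single j] at h2
    · rw [TT_fst, if_pos hj, Q_orth, if_pos rfl, real_inner_self_eq_norm_sq, z.2.1] at h2
      simpa using h2
    · intro i _ hij
      rw [TT_fst]
      by_cases hi : fstIdx i
      · rw [if_pos hi, Q_orth, if_neg, inner_zero_left, add_zero, mul_zero]
        intro he
        apply hij
        revert he hi hj; clear h1 h2 hij; revert i j; decide +kernel
      · rw [if_neg hi, inner_zero_right, inner_zero_left, add_zero, mul_zero]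
    · intro hh; exact absurd (Finset.mem_univ _) hh
  · have h2 := h1 (0, Q (loc j) z.1.2)
    rw [sum_eq_single j] at h2
    · rw [TT_snd, if_neg hj, Q_orth, if_pos rfl, real_inner_self_eq_norm_sq, z.2.2] at h2
      simpa using h2
    · intro i _ hij
      rw [TT_snd]
      by_cases hi : fstIdx i
      · rw [if_pos hi, inner_zero_right, inner_zero_left, add_zero, mul_zero]
      · rw [if_neg hi, Q_orth, if_neg, inner_zero_left, zero_add, mul_zero]
        intro he
        apply hij
        revert he hi hj; clear h1 h2 hij; revert i j; decide +kernel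
    · intro hh; exact absurd (Finset.mem_univ _) hh

/-- linear functions on the product of spheres -/
noncomputable def linM (v : E8) (x : M3) : ℝ := inner ℝ v.1 (x.1 : E4) + inner ℝ v.2 (x.2 : E4)

lemma linM_smooth (v : E8) : ContMDiff I3 𝓘(ℝ, ℝ) ∞ (linM v) := by
  have h1 : ContMDiff I3 𝓘(ℝ, E4) ∞ (fun x : M3 => (x.1 : E4)) :=
    (contMDiff_coe_sphere (n := 3)).comp contMDiff_fst
  have h2 : ContMDiff I3 𝓘(ℝ, E4) ∞ (fun x : M3 => (x.2 : E4)) :=
    (contMDiff_coe_sphere (n := 3)).comp contMDiff_snd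
  have h3 : ContMDiff I3 𝓘(ℝ, ℝ) ∞ (fun x : M3 => inner ℝ v.1 (x.1 : E4)) :=
    (innerSL ℝ v.1).contDiff.contMDiff.comp h1
  have h4 : ContMDiff I3 𝓘(ℝ, ℝ) ∞ (fun x : M3 => inner ℝ v.2 (x.2 : E4)) :=
    (innerSL ℝ v.2).contDiff.contMDiff.comp h2
  exact h3.add h4

lemma tr_linM (v : E8) : tr (linM v) (linM_smooth v) = lin v := by
  apply AS_ext
  intro x
  rw [tr_apply, lin_apply]
  rfl

lemma VV_li (x : M3) : LinearIndependent ℝ (fun i => VV i x) := by
  rw [Fintype.linearIndependent_iff]
  intro c hc i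
  have h := pt_ind (mkS x) c (fun v => by
    have h1 : mvfderiv I3 (linM v) x (∑ i, c i • VV i x) = 0 := by rw [hc, map_zero]
    rw [map_sum] at h1
    refine Eq.trans (sum_congr rfl fun i _ => ?_) h1
    rw [map_smul, smul_eq_mul, VV_deriv i (linM_smooth v) x, tr_linM])
  exact congrFun h i

/-- nowhere vanishing smooth functions are invertible -/
lemma AS_unit {u : AS} (hu : ∀ z, u.1 z ≠ 0) : ∃ w : AS, u * w = 1 := by
  refine ⟨⟨fun z => (u.1 z)⁻¹, fun y => (ext u y)⁻¹, fun y hy => ?_, fun z => ?_⟩, ?_⟩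
  · refine (ext_contDiffAt u hy).inv ?_
    have := ext_apply u ⟨y, hy⟩
    rw [this]
    exact hu _
  · beta_reduce
    rw [ext_apply]
  · apply Subtype.ext
    funext z
    exact mul_inv_cancel₀ (hu z)

/-- absolute values of nowhere vanishing smooth functions -/
lemma AS_abs {u : AS} (hu : ∀ z, u.1 z ≠ 0) : ∃ w : AS, w * w = u * u ∧ ∀ z, 0 < w.1 z := by
  refine ⟨⟨fun z => |u.1 z|, fun y => |ext u y|, fun y hy => ?_, fun z => ?_⟩, ?_, ?_⟩
  · have h0 : ext u y ≠ 0 := by
      have := ext_apply u ⟨y, hy⟩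
      rw [this]
      exact hu _
    exact (contDiffAt_abs h0).comp y (ext_contDiffAt u hy)
  · beta_reduce
    rw [ext_apply]
  · apply Subtype.ext
    funext z
    exact abs_mul_abs_self _
  · intro z
    exact abs_pos.mpr (hu z)

section build

variable {g : Met I3 M3}
  {cov : CovariantDerivative I3 W3 (fun x : M3 => TangentSpace I3 x)}
  {ef : Fin 6 → Π x : M3, TangentSpace I3 x}

/-- coefficients of the six fields in the orthonormal frame -/
noncomputable def fm (g : Met I3 M3) {ef : Fin 6 → Π x : M3, TangentSpace I3 x}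
    (he : ∀ a, SmoothVF (ef a)) : Matrix (Fin 6) (Fin 6) AS :=
  Matrix.of fun i b => tr (fun x => g.inner x (VV i x) (ef b x)) (inner_smooth g (VV_smooth i) (he b))

lemma fm_apply (he : ∀ a, SmoothVF (ef a)) (i b : Fin 6) (x : M3) :
    (fm g he i b).1 (mkS x) = g.inner x (VV i x) (ef b x) :=
  tr_apply (f := fun x => g.inner x (VV i x) (ef b x)) (inner_smooth g (VV_smooth i) (he b)) x

lemma dim6 : (6 : ℕ) = Module.finrank ℝ W3 := by simp [W3]

lemma VV_expand (he : ∀ a, SmoothVF (ef a))
    (ho : ∀ x a b, g.inner x (ef a x) (ef b x) = if a = b then 1 else 0) (i : Fin 6) (x : M3) :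
    VV i x = ∑ b, (fm g he i b).1 (mkS x) • ef b x := by
  simp only [fm_apply]
  exact expand dim6 ho x _

/-- evaluation at a point is a ring homomorphism -/
def evR (z : KS) : AS →+* ℝ where
  toFun f := f.1 z
  map_one' := rfl
  map_mul' _ _ := rfl
  map_zero' := rfl
  map_add' _ _ := rfl

lemma evR_apply (z : KS) (f : AS) : evR z f = f.1 z := rfl

lemma fm_det (he : ∀ a, SmoothVF (ef a))
    (ho : ∀ x a b, g.inner x (ef a x) (ef b x) = if a = b then 1 else 0) (z : KS) :
    (fm g he).det.1 z ≠ 0 := by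
  rw [← evR_apply, RingHom.map_det]
  intro h
  obtain ⟨c, hc0, hc⟩ := Matrix.exists_vecMul_eq_zero_iff.mpr h
  apply hc0
  set x := retM z with hx
  have hz : mkS x = z := mkS_retM z
  have h1 : ∑ i, c i • VV i x = 0 := by
    have h2 : ∀ i, c i • VV i x = ∑ b, (c i * (fm g he i b).1 (mkS x)) • ef b x := by
      intro i
      rw [VV_expand he ho i x, smul_sum]
      exact sum_congr rfl fun b _ => smul_smul _ _ _
    rw [sum_congr rfl fun i _ => h2 i, sum_comm]
    refine sum_eq_zero fun b _ => ?_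
    rw [← sum_smul]
    have h3 := congrFun hc b
    simp only [Matrix.vecMul, dotProduct, RingHom.mapMatrix_apply, Matrix.map_apply,
      Pi.zero_apply] at h3
    have h4 : ∑ i, c i * (fm g he i b).1 (mkS x) = 0 := by
      rw [hz]; exact h3
    rw [h4, zero_smul]
  exact funext fun i => Fintype.linearIndependent_iff.mp (VV_li x) c h1 i

lemma ef_expand (he : ∀ a, SmoothVF (ef a))
    (ho : ∀ x a b, g.inner x (ef a x) (ef b x) = if a = b then 1 else 0)
    {e : Matrix (Fin 6) (Fin 6) AS} (hef : e * fm g he = 1) (a : Fin 6) (x : M3) :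
    ef a x = ∑ i, (e a i).1 (mkS x) • VV i x := by
  have h1 : ∀ i, (e a i).1 (mkS x) • VV i x =
      ∑ b, ((e a i).1 (mkS x) * (fm g he i b).1 (mkS x)) • ef b x := by
    intro i
    rw [VV_expand he ho i x, smul_sum]
    exact sum_congr rfl fun b _ => smul_smul _ _ _
  rw [sum_congr rfl fun i _ => h1 i, sum_comm]
  have h2 : ∀ b, ∑ i, (e a i).1 (mkS x) * (fm g he i b).1 (mkS x) = if a = b then 1 else 0 := by
    intro b
    have h3 := congrArg (evR (mkS x)) (congrFun (congrFun hef a) b)
    rw [Matrix.mul_apply, map_sum, Matrix.one_apply] at h3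
    simp only [map_mul, evR_apply] at h3
    rw [h3]
    split_ifs <;> rfl
  simp only [← sum_smul, h2]
  simp

/-- derivative of a function along the orthonormal frame -/
lemma deriv_ef (he : ∀ a, SmoothVF (ef a))
    (ho : ∀ x a b, g.inner x (ef a x) (ef b x) = if a = b then 1 else 0)
    {e : Matrix (Fin 6) (Fin 6) AS} (hef : e * fm g he = 1) (a : Fin 6) {f : M3 → ℝ}
    (hf : ContMDiff I3 𝓘(ℝ, ℝ) ∞ f) (x : M3) :
    mvfderiv I3 f x (ef a x) = (toDer XS (e a) (tr f hf)).1 (mkS x) := by
  rw [ef_expand he ho hef a x, map_sum, toDer_apply]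
  have h1 := PS.ev_sum univ (fun i => e a i * XS i (tr f hf)) (mkS x)
  simp only [PS_ev] at h1
  rw [h1]
  refine sum_congr rfl fun i _ => ?_
  rw [map_smul, smul_eq_mul, VV_deriv i hf x]
  rfl

/-- the derivative of a smooth function along a smooth field is smooth -/
lemma deriv_smooth {X : Π x : M3, TangentSpace I3 x} (hX : SmoothVF X) {f : M3 → ℝ}
    (hf : ContMDiff I3 𝓘(ℝ, ℝ) ∞ f) :
    ContMDiff I3 𝓘(ℝ, ℝ) ∞ (fun x => mvfderiv I3 f x (X x)) := by
  have h1 : ContMDiff I3.tangent (𝓘(ℝ, ℝ)).tangent ∞ (tangentMap I3 𝓘(ℝ, ℝ) f) :=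
    hf.contMDiff_tangentMap (m := ∞) (by simp)
  have h2 := h1.comp hX
  have h3 := (contMDiff_snd_tangentBundle_modelSpace ℝ 𝓘(ℝ, ℝ) (n := ∞)).comp h2
  exact h3

lemma tr_congr {f f' : M3 → ℝ} (hf : ContMDiff I3 𝓘(ℝ, ℝ) ∞ f) (hf' : ContMDiff I3 𝓘(ℝ, ℝ) ∞ f')
    (h : f = f') : tr f hf = tr f' hf' := by subst h; rfl

/-- the frame data of a Riemannian metric with its Levi-Civita connection -/
theorem frame_exists (hcov : IsLC g cov) (he : ∀ a, SmoothVF (ef a))
    (ho : ∀ x a b, g.inner x (ef a x) (ef b x) = if a = b then 1 else 0) :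
    ∃ F : Frame CS, ∀ a b c d x, (F.R a b c d).1 (mkS x) =
      g.inner x (curv cov (ef a) (ef b) (ef d) x) (ef c x) := by
  -- the inverse matrix
  obtain ⟨w, hw⟩ := AS_unit (fm_det (g := g) he ho)
  have hunit : IsUnit (fm g he).det := IsUnit.of_mul_eq_one w hw
  obtain ⟨e, hef⟩ : ∃ e : Matrix (Fin 6) (Fin 6) AS, e * fm g he = 1 :=
    ⟨(fm g he)⁻¹, Matrix.nonsing_inv_mul _ hunit⟩
  -- connection coefficients
  set G : Fin 6 → Fin 6 → Fin 6 → AS := fun a i j =>
    tr (Gf g cov ef a i j) (Gf_smooth hcov he ho a i j) with hG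
  have hGx : ∀ a i j x, (G a i j).1 (mkS x) = Gf g cov ef a i j x :=
    fun a i j x => tr_apply (Gf_smooth hcov he ho a i j) x
  have hGskew : ∀ a i j, G a j i = - G a i j := by
    intro a i j
    apply AS_ext
    intro x
    change (G a j i).1 (mkS x) = - (G a i j).1 (mkS x)
    rw [hGx, hGx, Gf_skew hcov he ho]
  -- the commutation relation
  have hcomm : ∀ (a b : Fin 6) (v : E8),
      ∑ m, (G b a m - G a b m) * toDer XS (e m) (lin v) =
        toDer XS (e a) (toDer XS (e b) (lin v)) - toDer XS (e b) (toDer XS (e a) (lin v)) := by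
    intro a b v
    apply AS_ext
    intro x
    have hs : ∀ a, ContMDiff I3 𝓘(ℝ, ℝ) ∞ (fun y => mvfderiv I3 (linM v) y (ef a y)) :=
      fun a => deriv_smooth (he a) (linM_smooth v)
    have htr : ∀ a, tr _ (hs a) = toDer XS (e a) (lin v) := by
      intro a
      apply AS_ext
      intro y
      rw [tr_apply, deriv_ef he ho hef a (linM_smooth v) y, tr_linM]
    have h1 := mvfderiv_mlieBracket (I := I3) (x := x)
      (f := linM v) (((linM_smooth v) x).of_le (ENat.LEInfty.out)) ((he a).md x) ((he b).md x)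
    rw [deriv_ef he ho hef a (hs b) x, deriv_ef he ho hef b (hs a) x, htr, htr] at h1
    rw [bracket_expand dim6 hcov he ho a b x, map_sum] at h1
    have h2 : (∑ m, (G b a m - G a b m) * toDer XS (e m) (lin v) : AS).1 (mkS x) =
        ∑ m, ((G b a m).1 (mkS x) - (G a b m).1 (mkS x)) * (toDer XS (e m) (lin v)).1 (mkS x) := by
      have h3 := PS.ev_sum univ (fun m => (G b a m - G a b m) * toDer XS (e m) (lin v)) (mkS x)
      simp only [PS_ev] at h3
      rw [h3]
      rfl
    rw [h2]
    refine Eq.trans (sum_congr rfl fun m _ => ?_) h1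
    rw [hGx, hGx, map_smul, smul_eq_mul, deriv_ef he ho hef m (linM_smooth v) x, tr_linM]
  have htor : ∀ a b k, ∑ m, (G b a m - G a b m) * e m k =
      toDer CS.X (e a) (e b k) - toDer CS.X (e b) (e a k) + ∑ i, ∑ j, CS.cA i j k * e a i * e b j := by
    intro a b k
    apply Subtype.ext
    funext z
    set c : Fin 6 → ℝ := fun k => (∑ m, (G b a m - G a b m) * e m k -
      (toDer XS (e a) (e b k) - toDer XS (e b) (e a k) +
        ∑ i, ∑ j, CS.cA i j k * e a i * e b j) : AS).1 z with hc
    have h0 : c = 0 := by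
      apply pt_ind z
      intro v
      have h1 := hcomm a b v
      rw [toDer_comm XS CS.cA XS_comm (e a) (e b) (lin v)] at h1
      have h2 : ∑ m, (G b a m - G a b m) * toDer XS (e m) (lin v) =
          ∑ k, (∑ m, (G b a m - G a b m) * e m k) * XS k (lin v) := by
        simp only [toDer_apply, mul_sum, sum_mul]
        rw [sum_comm]
        exact sum_congr rfl fun k _ => sum_congr rfl fun m _ => by ring
      rw [h2, ← sub_eq_zero, ← sum_sub_distrib] at h1
      have h3 := congrArg (evR z) h1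
      rw [map_sum, map_zero] at h3
      refine Eq.trans (sum_congr rfl fun k _ => ?_) h3
      rw [← sub_mul, map_mul]
      rfl
    have h4 := congrFun h0 k
    exact sub_eq_zero.mp h4
  -- the density
  obtain ⟨ρ, hρ, hρpos⟩ := AS_abs (fm_det (g := g) he ho)
  have hdet : e.det * (fm g he).det = 1 := by rw [← Matrix.det_mul, hef, Matrix.det_one]
  have hρ' : ρ * ρ * (Matrix.det (Matrix.of e) * Matrix.det (Matrix.of e)) = 1 := by
    have h1 : Matrix.of e = e := rfl
    rw [h1, hρ]
    linear_combination (e.det * (fm g he).det + 1) * hdet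
  refine ⟨{ e := e, f := fm g he, hef := ?_, G := G, hG := hGskew, htor := htor, ρ := ρ,
            hρ := hρ', hρpos := hρpos }, ?_⟩
  · intro a b
    have := congrFun (congrFun hef a) b
    rwa [Matrix.mul_apply, Matrix.one_apply] at this
  · intro a b c d x
    rw [curv_frame dim6 hcov he ho a b c d x, deriv_ef he ho hef a (Gf_smooth hcov he ho b c d) x,
      deriv_ef he ho hef b (Gf_smooth hcov he ho a c d) x]
    change (toDer XS (e a) (G b c d)).1 (mkS x) - (toDer XS (e b) (G a c d)).1 (mkS x) +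
      (mcomm (G a) (G b) c d).1 (mkS x) -
      (∑ f, (G b a f - G a b f) * G f c d : AS).1 (mkS x) = _
    have h1 : (mcomm (G a) (G b) c d).1 (mkS x) =
        ∑ f, (Gf g cov ef a c f x * Gf g cov ef b f d x - Gf g cov ef b c f x * Gf g cov ef a f d x) := by
      rw [mcomm]
      have h3 := PS.ev_sum univ (fun f => G a c f * G b f d - G b c f * G a f d) (mkS x)
      simp only [PS_ev] at h3
      rw [h3]
      refine sum_congr rfl fun f _ => ?_
      change (G a c f).1 (mkS x) * (G b f d).1 (mkS x) - (G b c f).1 (mkS x) * (G a f d).1 (mkS x) = _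
      rw [hGx, hGx, hGx, hGx]
    have h2 : (∑ f, (G b a f - G a b f) * G f c d : AS).1 (mkS x) =
        ∑ f, (Gf g cov ef b a f x - Gf g cov ef a b f x) * Gf g cov ef f c d x := by
      have h3 := PS.ev_sum univ (fun f => (G b a f - G a b f) * G f c d) (mkS x)
      simp only [PS_ev] at h3
      rw [h3]
      refine sum_congr rfl fun f _ => ?_
      change ((G b a f).1 (mkS x) - (G a b f).1 (mkS x)) * (G f c d).1 (mkS x) = _
      rw [hGx, hGx, hGx]
    rw [h1, h2]

end build

end Pool.Agent.H83.Geo
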