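import Mathlib
import Pool.Agent.H83.Geo.S3Frame

/-! Final form of the theorem on the product of two 3-spheres. -/

namespace Pool.Agent.H83.Geo

open Set Filter Topology Bundle VectorField Finset
open scoped Manifold ContDiff
open Curv

/-- eigenvalue sums and orthonormal tuples -/
lemma tuple_pos {n : Type*} [Fintype n] [DecidableEq n] {A : Matrix n n ℝ} (hA : A.IsHermitian)
    {k : ℕ} (hk : k ≤ Fintype.card n)
    (h : ∀ s : Finset n, s.card = k → 0 < ∑ i ∈ s, hA.eigenvalues i)
    (v : Fin k → n → ℝ) (hv : ∀ i j, ∑ p, v i p * v j p = if i = j then 1 else 0) :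
    0 < ∑ i, ∑ p, ∑ q, v i p * A p q * v i q := by
  have hs := hA.spectral_theorem
  set V : Matrix n n ℝ := (hA.eigenvectorUnitary : Matrix n n ℝ) with hV
  set l := hA.eigenvalues with hl
  have hV1 : V * star V = 1 := Matrix.mem_unitaryGroup_iff.mp hA.eigenvectorUnitary.2
  have hV2 : star V * V = 1 := Matrix.mem_unitaryGroup_iff'.mp hA.eigenvectorUnitary.2
  have hA1 : ∀ p q, A p q = ∑ α, l α * (V p α * V q α) := by
    intro p q
    have h1 : A = V * Matrix.diagonal l * star V := by
      conv_lhs => rw [hs]
      rfl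
    have h2 := congrFun (congrFun h1 p) q
    rw [Matrix.mul_apply] at h2
    rw [h2]
    refine sum_congr rfl fun α _ => ?_
    rw [Matrix.mul_diagonal, Matrix.star_apply, star_trivial]
    ring
  have hu1 : ∀ p q, ∑ α, V p α * V q α = if p = q then 1 else 0 := by
    intro p q
    have := congrFun (congrFun hV1 p) q
    rw [Matrix.mul_apply, Matrix.one_apply] at this
    rw [← this]
    exact sum_congr rfl fun α _ => by rw [Matrix.star_apply, star_trivial]
  have hu2 : ∀ α β, ∑ p, V p α * V p β = if α = β then 1 else 0 := by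
    intro α β
    have := congrFun (congrFun hV2 α) β
    rw [Matrix.mul_apply, Matrix.one_apply] at this
    rw [← this]
    exact sum_congr rfl fun p _ => by rw [Matrix.star_apply, star_trivial]
  -- the coefficients
  set c : Fin k → n → ℝ := fun i α => ∑ p, v i p * V p α with hc
  have hq : ∀ i, ∑ p, ∑ q, v i p * A p q * v i q = ∑ α, c i α ^ 2 * l α := by
    intro i
    have h1 : ∀ α, c i α ^ 2 * l α = ∑ p, ∑ q, v i p * (l α * (V p α * V q α)) * v i q := by
      intro α
      rw [hc]
      simp only
      rw [sq, sum_mul_sum, sum_mul]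
      refine sum_congr rfl fun p _ => ?_
      rw [sum_mul]
      exact sum_congr rfl fun q _ => by ring
    simp only [h1, hA1]
    conv_rhs => rw [sum_comm]
    refine sum_congr rfl fun p _ => ?_
    conv_rhs => rw [sum_comm]
    refine sum_congr rfl fun q _ => ?_
    rw [mul_sum, sum_mul]
  have hsum1 : ∀ i, ∑ α, c i α ^ 2 = 1 := by
    intro i
    have h1 : ∀ α, c i α ^ 2 = ∑ p, ∑ q, (v i p * v i q) * (V p α * V q α) := by
      intro α
      rw [hc]
      simp only
      rw [sq, sum_mul_sum]
      exact sum_congr rfl fun p _ => sum_congr rfl fun q _ => by ring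
    simp only [h1]
    rw [sum_comm]
    have h2 : ∀ p, ∑ α, ∑ q, (v i p * v i q) * (V p α * V q α) = v i p * v i p := by
      intro p
      rw [sum_comm]
      simp only [← mul_sum, hu1]
      simp
    simp only [h2, hv]
    simp
  have hle : ∀ α, ∑ i, c i α ^ 2 ≤ 1 := by
    intro α
    have h1 : 0 ≤ ∑ p, (V p α - ∑ i, c i α * v i p) ^ 2 := sum_nonneg fun p _ => sq_nonneg _
    have h2 : ∑ p, (V p α - ∑ i, c i α * v i p) ^ 2 = 1 - ∑ i, c i α ^ 2 := by
      have h3 : ∀ p, (V p α - ∑ i, c i α * v i p) ^ 2 = V p α * V p α -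
          2 * ∑ i, c i α * (v i p * V p α) + ∑ i, ∑ j, (c i α * c j α) * (v i p * v j p) := by
        intro p
        have h4 : (∑ i, c i α * v i p) ^ 2 = ∑ i, ∑ j, (c i α * c j α) * (v i p * v j p) := by
          rw [sq, sum_mul_sum]
          exact sum_congr rfl fun i _ => sum_congr rfl fun j _ => by ring
        have h5 : ∑ i, c i α * (v i p * V p α) = (∑ i, c i α * v i p) * V p α := by
          rw [sum_mul]
          exact sum_congr rfl fun i _ => by ring
        rw [← h4, h5]; ring
      simp only [h3, sum_add_distrib, sum_sub_distrib, ← mul_sum]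
      have h6 : ∑ p, ∑ i, c i α * (v i p * V p α) = ∑ i, c i α ^ 2 := by
        rw [sum_comm]
        simp only [← mul_sum]
        exact sum_congr rfl fun i _ => by rw [sq]
      have h7 : ∑ p, ∑ i, ∑ j, (c i α * c j α) * (v i p * v j p) = ∑ i, c i α ^ 2 := by
        rw [sum_comm]
        refine sum_congr rfl fun i _ => ?_
        rw [sum_comm]
        simp only [← mul_sum, hv]
        simp [sq]
      rw [h6, h7, hu2, if_pos rfl]; ring
    linarith
  simp only [hq]
  rw [sum_comm]
  simp only [← sum_mul]
  refine weighted_pos (k := k) hk l (fun α => ∑ i, c i α ^ 2) (μ := 1) one_pos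
    (fun α => sum_nonneg fun i _ => sq_nonneg _) hle ?_ h
  rw [sum_comm]
  simp only [hsum1]
  simp

/-- **Theorem.** For every Riemannian metric on the product of two 3-spheres there is a point at
which the sum of the four smallest eigenvalues of the curvature operator is not positive. -/
theorem s3_main (g : Met I3 M3)
    (nabla : CovariantDerivative I3 W3 (fun x : M3 => TangentSpace I3 x)) (h : IsLC g nabla) :
    ∃ (x : M3) (e : Fin 6 → Π x : M3, TangentSpace I3 x), (∀ a, SmoothVF (e a)) ∧
      (∀ y a b, g.inner y (e a y) (e b y) = if a = b then 1 else 0) ∧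
      ∃ (hA : (curvMatrix g nabla e x).IsHermitian) (s : Finset {p : Fin 6 × Fin 6 // p.1 < p.2}),
        s.card = 4 ∧ ∑ i ∈ s, hA.eigenvalues i ≤ 0 := by
  obtain ⟨e, he, ho, -⟩ := exists_ortho g (fun i => VV i) (fun i => VV_smooth i) VV_li
  obtain ⟨F, hF⟩ := frame_exists h he ho
  by_contra hcon
  push Not at hcon
  apply no_frame F
  intro z
  set x := retM z with hx
  have hz : mkS x = z := mkS_retM z
  have hFx : ∀ a b c d, CS.ev (F.R a b c d) z =
      g.inner x (curv nabla (e a) (e b) (e d) x) (e c x) := by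
    intro a b c d
    rw [← hF a b c d x, hz]
    rfl
  have hA : (curvMatrix g nabla e x).IsHermitian := by
    ext p q
    rw [Matrix.conjTranspose_apply, star_trivial]
    have h1 := (F.isCurv z).pair p.1.1 p.1.2 q.1.1 q.1.2
    rw [hFx, hFx] at h1
    exact h1
  intro v hv
  have h2 := tuple_pos hA (k := 4) (by simp [Fintype.card_subtype]; decide)
    (fun s hs => hcon x e he ho hA s hs) v hv
  simp only [hFx]
  exact h2

end Pool.Agent.H83.Geo
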